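import Mathlib
import Pool.Agent.N994.PG.HMain

/-!
# The trace form of the Lie algebra generated by the conjugates of the complex structure
-/

set_option linter.unusedSectionVars false

namespace Pool.Agent.N994.FH

open Matrix Module Pool.Agent.W437.HC Pool.Agent.W437.HD Pool.Agent.TH504.CB Pool.Agent.Y90
open Pool.Agent.R915 Pool.Agent.N994.PG
open Pool.Agent.W548.Odd hiding cv
open Pool.Agent.H204R3.CM (IsHodge)

open scoped ComplexOrder

noncomputable section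

variable {g : ℕ} {Z : Matrix (Fin g) (Fin g) ℂ}

/-- Conjugation with the complex structure. -/
theorem conj_mem (h : PM Z) {X : Matrix (Fin g ⊕ Fin g) (Fin g ⊕ Fin g) ℂ} (hX : X ∈ LZ Z) :
    DZ Z * X * DZ Z ∈ LZ Z := by
  have h1 := LZ_br (DZ_mem (Z := Z)) (LZ_br (DZ_mem (Z := Z)) hX)
  have h2 : DZ Z * X * DZ Z = X - (1 / 2 : ℂ) •
      (DZ Z * (DZ Z * X - X * DZ Z) - (DZ Z * X - X * DZ Z) * DZ Z) := by
    have h3 : DZ Z * (DZ Z * X - X * DZ Z) - (DZ Z * X - X * DZ Z) * DZ Z =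
        (DZ Z * DZ Z) * X + X * (DZ Z * DZ Z) - (2 : ℂ) • (DZ Z * X * DZ Z) := by
      rw [two_smul]
      noncomm_ring
    rw [h3, DZ_sq h.det, one_mul, mul_one]
    module
  rw [h2]
  exact Submodule.sub_mem _ hX (Submodule.smul_mem _ _ h1)

/-- **The trace form is nondegenerate.** -/
theorem nd_LZ (h : PM Z) {X : Matrix (Fin g ⊕ Fin g) (Fin g ⊕ Fin g) ℂ} (hX : X ∈ LZ Z)
    (h0 : ∀ Y ∈ LZ Z, trace (X * Y) = 0) : X = 0 := by
  have hJ : JR Z * JR Z = -1 := JR_sq h.det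
  have hH := OmJ_posDef h.symm h.pos
  obtain ⟨y, hy, hyy⟩ := exists_sqrt hH
  rw [star_eq_conjTranspose, conjTranspose_eq_transpose_of_trivial] at hyy
  obtain ⟨yi, hyyi⟩ : ∃ yi, y * yi = 1 := hy.exists_right_inv
  have hyiy : yi * y = 1 := mul_eq_one_comm.1 hyyi
  have hJH : JR Z = -(Om g ℝ * (yᵀ * y)) := by
    rw [← hyy, ← mul_assoc, Om_sq, neg_one_mul, neg_neg]
  have hyyiT : yiᵀ * yᵀ = 1 := by rw [← transpose_mul, hyyi, transpose_one]
  have hJO : JR Z = yi * yiᵀ * (-(Om g ℝ)) := by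
    have e1 : (yᵀ * y) * JR Z = -Om g ℝ := by
      rw [← hyy, mul_assoc, hJ, mul_neg_one]
    have e2 : yi * yiᵀ * ((yᵀ * y) * JR Z) = JR Z := by
      have : yi * yiᵀ * ((yᵀ * y) * JR Z) = yi * ((yiᵀ * yᵀ) * y) * JR Z := by noncomm_ring
      rw [this, hyyiT, one_mul, hyiy, one_mul]
    rw [← e1, e2]
  -- complexification
  let c : Matrix (Fin g ⊕ Fin g) (Fin g ⊕ Fin g) ℝ →+* Matrix (Fin g ⊕ Fin g) (Fin g ⊕ Fin g) ℂ :=
    Complex.ofRealHom.mapMatrix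
  have hcO : c (Om g ℝ) = Om g ℂ := by
    ext i j
    rcases i with i | i <;> rcases j with j | j <;>
      simp [c, Om, Matrix.one_apply, apply_ite]
  have hcT : ∀ A, c Aᵀ = (c A)ᵀ := fun A => rfl
  have hcH : ∀ A, (c A)ᴴ = (c A)ᵀ := by
    intro A
    ext i j
    change star (((A j i : ℝ) : ℂ)) = ((A j i : ℝ) : ℂ)
    exact Complex.conj_ofReal _
  have hcJ : DZ Z = (-Complex.I) • c (JR Z) := rfl
  have h1 : c y * c yi = 1 := by rw [← map_mul, hyyi, map_one]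
  have h2 : c yi * c y = 1 := by rw [← map_mul, hyiy, map_one]
  have hJH' : c (JR Z) = -(Om g ℂ * ((c y)ᵀ * c y)) := by
    rw [hJH, map_neg, map_mul, map_mul, hcO, hcT]
  have hJO' : c (JR Z) = c yi * (c yi)ᵀ * (-(Om g ℂ)) := by
    conv_lhs => rw [hJO]
    rw [map_mul, map_mul, map_neg, hcO, hcT]
  -- the adjoint
  set X' : Matrix (Fin g ⊕ Fin g) (Fin g ⊕ Fin g) ℂ := X.map cc with hX'
  have hX'm : X' ∈ LZ Z := gal_LZ cc X hX
  have hXH : Xᴴ = X'ᵀ := by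
    ext i j
    rfl
  have hsp := h.sp hX'm
  have hOX : Om g ℂ * X' = -(X'ᵀ * Om g ℂ) := eq_neg_of_add_eq_zero_right hsp
  have h4 : DZ Z * X' * DZ Z = -(c yi * (c yi)ᵀ * Xᴴ * ((c y)ᵀ * c y)) := by
    have e0 : DZ Z * X' * DZ Z = -(c (JR Z) * X' * c (JR Z)) := by
      rw [hcJ, Matrix.smul_mul, Matrix.smul_mul, Matrix.mul_smul, smul_smul, neg_mul_neg,
        Complex.I_mul_I, neg_one_smul]
    have e1 : c (JR Z) * X' * c (JR Z) =
        (c yi * (c yi)ᵀ * (-(Om g ℂ))) * X' * (-(Om g ℂ * ((c y)ᵀ * c y))) := by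
      rw [← hJO', ← hJH']
    have e2 : (c yi * (c yi)ᵀ * (-(Om g ℂ))) * X' * (-(Om g ℂ * ((c y)ᵀ * c y))) =
        (c yi * (c yi)ᵀ) * (Om g ℂ * X') * (Om g ℂ * ((c y)ᵀ * c y)) := by noncomm_ring
    have e3 : (c yi * (c yi)ᵀ) * -(X'ᵀ * Om g ℂ) * (Om g ℂ * ((c y)ᵀ * c y)) =
        -((c yi * (c yi)ᵀ) * X'ᵀ * (Om g ℂ * Om g ℂ) * ((c y)ᵀ * c y)) := by noncomm_ring
    rw [e0, e1, e2, hOX, e3, Om_sq, hXH]
    noncomm_ring
  have h3 := h0 _ (conj_mem h hX'm)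
  rw [h4, mul_neg, trace_neg, neg_eq_zero] at h3
  have h5 : trace ((c y * X * c yi) * (c y * X * c yi)ᴴ) = 0 := by
    rw [conjTranspose_mul, conjTranspose_mul, hcH, hcH]
    have e1 : c y * X * c yi * ((c yi)ᵀ * (Xᴴ * (c y)ᵀ)) =
        c y * (X * c yi * ((c yi)ᵀ * (Xᴴ * (c y)ᵀ))) := by noncomm_ring
    rw [e1, trace_mul_comm, ← h3]
    congr 1
    noncomm_ring
  rw [trace_mul_conjTranspose_self_eq_zero_iff] at h5
  have e1 : c yi * (c y * X * c yi) * c y = X := by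
    have : c yi * (c y * X * c yi) * c y = (c yi * c y) * X * (c yi * c y) := by noncomm_ring
    rw [this, h2, one_mul, mul_one]
  rw [← e1, h5, mul_zero, zero_mul]

end

end Pool.Agent.N994.FH
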