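import Mathlib
import Pool.Agent.N994.FH.A

/-!
# Invariant forms are killed by the Lefschetz Lie algebra
-/

set_option linter.unusedSectionVars false

namespace Pool.Agent.N994.FH

open Matrix Module Pool.Agent.W437.HC Pool.Agent.W437.HD Pool.Agent.TH504.CB Pool.Agent.Y90
open Pool.Agent.R915 Pool.Agent.N994.PG
open Pool.Agent.W548.Odd hiding cv
open Pool.Agent.H204R3.CM (IsHodge)
open Pool.Agent.H204R3.SP (Kills bil2 IsTate)
open Pool.Agent.W522.U (exists_reps exists_st Du)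

noncomputable section

section ks

variable {V : Type*} [AddCommGroup V] [Module ℂ V] (S : Module.End ℂ V)

/-- The forms killed by an endomorphism. -/
def KS (κ : Type) [Finite κ] : Submodule ℂ (MultilinearMap ℂ (fun _ : κ => V) ℂ) where
  carrier := {F | ∀ (_ : Fintype κ) (_ : DecidableEq κ), Kills S F}
  add_mem' := by
    intro F F' hF hF' i1 i2 v
    simp only [_root_.add_apply, Finset.sum_add_distrib]
    rw [hF i1 i2 v, hF' i1 i2 v, add_zero]
  zero_mem' := by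
    intro i1 i2 v
    simp only [_root_.zero_apply, Finset.sum_const_zero]
  smul_mem' := by
    intro c F hF i1 i2 v
    simp only [_root_.smul_apply, smul_eq_mul, ← Finset.mul_sum]
    rw [hF i1 i2 v, mul_zero]

theorem clo_KS : Clo (KS S) := by
  constructor
  · intro κ _ _ F i1 i2 v
    exact Finset.sum_eq_zero fun k _ => isEmptyElim k
  · intro κ κ' κ'' _ _ _ e φ φ' ψ hφ hφ' hψ i1 i2 v
    classical
    let j1 : Fintype κ := Fintype.ofFinite κ
    let j2 : Fintype κ' := Fintype.ofFinite κ'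
    rw [← e.sum_comp, Fintype.sum_sum_type]
    have h1 : ∀ k : κ, ψ (Function.update v (e (Sum.inl k)) (S (v (e (Sum.inl k))))) =
        φ (Function.update (fun k => v (e (Sum.inl k))) k (S (v (e (Sum.inl k))))) *
          φ' (fun k => v (e (Sum.inr k))) := by
      intro k
      rw [hψ]
      congr 1
      · congr 1
        funext l
        by_cases hl : l = k
        · subst hl
          rw [Function.update_self, Function.update_self]
        · rw [Function.update_of_ne hl, Function.update_of_ne (fun h => hl ?_)]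
          exact Sum.inl_injective (e.injective h)
      · congr 1
        funext l
        rw [Function.update_of_ne]
        intro h
        exact Sum.inr_ne_inl (e.injective h)
    have h2 : ∀ k : κ', ψ (Function.update v (e (Sum.inr k)) (S (v (e (Sum.inr k))))) =
        φ (fun k => v (e (Sum.inl k))) *
          φ' (Function.update (fun k => v (e (Sum.inr k))) k (S (v (e (Sum.inr k))))) := by
      intro k
      rw [hψ]
      congr 1
      · congr 1
        funext l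
        rw [Function.update_of_ne]
        intro h
        exact Sum.inl_ne_inr (e.injective h)
      · congr 1
        funext l
        by_cases hl : l = k
        · subst hl
          rw [Function.update_self, Function.update_self]
        · rw [Function.update_of_ne hl, Function.update_of_ne (fun h => hl ?_)]
          exact Sum.inr_injective (e.injective h)
    rw [Finset.sum_congr rfl fun k _ => h1 k, Finset.sum_congr rfl fun k _ => h2 k,
      ← Finset.sum_mul, ← Finset.mul_sum]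
    have h3 := hφ j1 (Classical.decEq κ) (fun k => v (e (Sum.inl k)))
    have h4 := hφ' j2 (Classical.decEq κ') (fun k => v (e (Sum.inr k)))
    have h5 : ∑ k : κ, φ (Function.update (fun k => v (e (Sum.inl k))) k
        (S (v (e (Sum.inl k))))) = 0 := by
      rw [← h3]
    have h6 : ∑ k : κ', φ' (Function.update (fun k => v (e (Sum.inr k))) k
        (S (v (e (Sum.inr k))))) = 0 := by
      rw [← h4]
    rw [h5, h6, zero_mul, mul_zero, add_zero]

end ks

variable {G : ℕ} {Z : Matrix (Fin G) (Fin G) ℂ}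

/-- The Lefschetz Lie algebra: symplectic matrices which commute with the commutant. -/
structure Lef (Z : Matrix (Fin G) (Fin G) ℂ) (S : Matrix (Fin G ⊕ Fin G) (Fin G ⊕ Fin G) ℂ) :
    Prop where
  sp : Sᵀ * Om G ℂ + Om G ℂ * S = 0
  comm : ∀ F : Matrix (Fin G ⊕ Fin G) (Fin G ⊕ Fin G) ℂ, (∀ X ∈ LZ Z, X * F = F * X) →
    S * F = F * S

theorem Lef.of_mem (h : PM Z) {X : Matrix (Fin G ⊕ Fin G) (Fin G ⊕ Fin G) ℂ} (hX : X ∈ LZ Z) :
    Lef Z X := ⟨h.sp hX, fun _ hF => hF X hX⟩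

/-- The Lefschetz Lie algebra kills the invariant bilinear forms. -/
theorem Lef.bil {S : Matrix (Fin G ⊕ Fin G) (Fin G ⊕ Fin G) ℂ} (hS : Lef Z S) (h : PM Z)
    (b : (Fin G ⊕ Fin G → ℂ) →ₗ[ℂ] (Fin G ⊕ Fin G → ℂ) →ₗ[ℂ] ℂ)
    (hb : ∀ X ∈ LZ Z, ∀ u v, b (X *ᵥ u) v + b u (X *ᵥ v) = 0)
    (u v : Fin G ⊕ Fin G → ℂ) : b (S *ᵥ u) v + b u (S *ᵥ v) = 0 := by
  obtain ⟨B, hB⟩ : ∃ B : Matrix (Fin G ⊕ Fin G) (Fin G ⊕ Fin G) ℂ, ∀ u v, b u v = u ⬝ᵥ (B *ᵥ v) := by
    refine ⟨LinearMap.toMatrix₂' ℂ b, fun u v => ?_⟩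
    rw [← Matrix.toLinearMap₂'_apply', Matrix.toLinearMap₂'_toMatrix']
  have hdot : ∀ (A : Matrix (Fin G ⊕ Fin G) (Fin G ⊕ Fin G) ℂ) (u v : Fin G ⊕ Fin G → ℂ),
      (A *ᵥ u) ⬝ᵥ (B *ᵥ v) = u ⬝ᵥ ((Aᵀ * B) *ᵥ v) := by
    intro A u v
    rw [← mulVec_mulVec, dotProduct_mulVec u, vecMul_transpose]
  have hmat : ∀ A : Matrix (Fin G ⊕ Fin G) (Fin G ⊕ Fin G) ℂ,
      (∀ u v, b (A *ᵥ u) v + b u (A *ᵥ v) = 0) → Aᵀ * B + B * A = 0 := by
    intro A hA
    ext i j
    have h1 := hA (Pi.single i 1) (Pi.single j 1)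
    rw [hB, hB, hdot, mulVec_mulVec, ← dotProduct_add, ← add_mulVec, mulVec_single_one,
      single_dotProduct, one_mul] at h1
    exact h1
  have hOO : Om G ℂ * Om G ℂ = -1 := Om_sq ℂ
  have key : ∀ A : Matrix (Fin G ⊕ Fin G) (Fin G ⊕ Fin G) ℂ, Aᵀ * Om G ℂ + Om G ℂ * A = 0 →
      (Aᵀ * B + B * A = 0 ↔ A * (Om G ℂ * B) = (Om G ℂ * B) * A) := by
    intro A hA
    have h1 : Om G ℂ * Aᵀ = -(A * Om G ℂ) := by
      have h2 : Aᵀ * Om G ℂ = -(Om G ℂ * A) := eq_neg_of_add_eq_zero_left hA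
      have h3 : Om G ℂ * (Aᵀ * Om G ℂ) * Om G ℂ = Om G ℂ * -(Om G ℂ * A) * Om G ℂ := by rw [h2]
      have h4 : Om G ℂ * (Aᵀ * Om G ℂ) * Om G ℂ = Om G ℂ * Aᵀ * (Om G ℂ * Om G ℂ) := by noncomm_ring
      have h5 : Om G ℂ * -(Om G ℂ * A) * Om G ℂ = -(Om G ℂ * Om G ℂ) * (A * Om G ℂ) := by
        noncomm_ring
      rw [h4, h5, hOO, neg_neg, one_mul, mul_neg_one] at h3
      rw [← h3, neg_neg]
    have h6 : Om G ℂ * (Aᵀ * B + B * A) = -(A * (Om G ℂ * B)) + Om G ℂ * B * A := by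
      rw [mul_add, ← mul_assoc, h1]
      noncomm_ring
    constructor
    · intro h7
      rw [h7, mul_zero] at h6
      exact (neg_add_eq_zero.1 h6.symm)
    · intro h7
      rw [h7, neg_add_cancel] at h6
      have h8 : Om G ℂ * (Om G ℂ * (Aᵀ * B + B * A)) = 0 := by rw [h6, mul_zero]
      rw [← mul_assoc, hOO, neg_one_mul, neg_eq_zero] at h8
      exact h8
  have h1 := hS.comm (Om G ℂ * B) fun X hX => (key X (h.sp hX)).1 (hmat X (hb X hX))
  have h2 := (key S hS.sp).2 h1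
  rw [hB, hB, hdot, mulVec_mulVec, ← dotProduct_add, ← add_mulVec, h2, zero_mulVec,
    dotProduct_zero]

/-- **Invariant forms are killed.** -/
theorem Lef.kills {S : Matrix (Fin G ⊕ Fin G) (Fin G ⊕ Fin G) ℂ} (hS : Lef Z S) (h : PM Z)
    (hloc : ∀ U, IrS (LZ Z) U → Rk1 Z U ∧ 2 ≤ finrank ℂ U ∧ SDu Z U) {m : ℕ}
    (φ : MultilinearMap ℂ (fun _ : Fin m × Fin 2 => Fin G ⊕ Fin G → ℂ) ℂ)
    (hφ : ∀ (g : Gam (GG (LZ Z))) v, φ (fun k => RZ Z g (v k)) = φ v) :
    φ ∈ KS (mulVecLin S) (Fin m × Fin 2) := by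
  have hSI : ∀ {U}, W522.U.SI (RZ Z) U ↔ IrS (LZ Z) U := fun {U} => si_iff h.genI
  obtain ⟨s, W, hW, hWW, hall⟩ := exists_reps (rz_proj h)
  obtain ⟨st, hst, hDu, hDu'⟩ := exists_st (χ := 1) (rz_proj h) (om G) om_nd (rz_om h) W hW hWW hall
  refine forms_mem' (χ := 1) (fun Δ hΔ => fi_top Δ hΔ) (om G) om_nd (rz_om h) ?_ ?_ ?_ (rz_proj h)
    W hW hWW hall st hst hDu hDu' (fun κ _ => KS (mulVecLin S) κ) (clo_KS (mulVecLin S)) ?_ ?_ φ ?_
  · intro U hU hn
    exact rz_unip h (hloc U (hSI.1 hU)).1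
  · intro U hU hn
    exact rz_line h (hSI.1 hU) hn
  · intro U U' hU hU' hn _ ψ hT
    exact rz_twist h (hSI.1 hU) (hSI.1 hU') (ns_of_sdu h (hloc U (hSI.1 hU)).2.2) ψ hT
  · intro b hb i1 i2 v
    obtain rfl : i1 = Fin.fintype 2 := Subsingleton.elim _ _
    obtain rfl : i2 = instDecidableEqFin 2 := Subsingleton.elim _ _
    have h1 := hS.bil h b (fun X hX u v => (rz_bil h stab_top stab_top b).1 (fun g u _ v _ => by
      rw [hb, MonoidHom.one_apply, one_mul]) X hX u trivial v trivial) (v 0) (v 1)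
    rw [Fin.sum_univ_two]
    exact h1
  · intro a ha _ ι _ _ f p hp ψ hψ
    have h0 : ∀ i, a i = 0 := by
      intro i
      have h4 := (hloc _ (hSI.1 (hW i))).2.2
      have h5 := hDu' i i ((rz_du h (hSI.1 (hW i)).2.1 (hSI.1 (hW i)).2.1).2 h4)
      have h6 := ha i
      rw [← h5] at h6
      omega
    have : IsEmpty (Σ q, ι q) := ⟨by
      rintro ⟨⟨i, q⟩, -⟩
      have h1 := q.2
      have h2 := h0 i
      omega⟩
    exact (clo_KS (mulVecLin S)).unit _ ψ
  · refine ⟨⊤, inferInstance, fun g _ v => ?_⟩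
    rw [MonoidHom.one_apply, one_pow, one_mul]
    exact hφ g v

end

end Pool.Agent.N994.FH
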