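import Mathlib
import Pool.Agent.N994.FH.B

/-!
# The Lefschetz Lie algebra is the Hodge Lie algebra
-/

set_option linter.unusedSectionVars false

namespace Pool.Agent.N994.FH

open Matrix Module Pool.Agent.W437.HC Pool.Agent.W437.HD Pool.Agent.TH504.CB Pool.Agent.Y90
open Pool.Agent.R915 Pool.Agent.N994.PG
open Pool.Agent.W548.Odd hiding cv
open Pool.Agent.H204R3.CM (IsHodge)
open Pool.Agent.H204R3.SP (Kills bil2 IsTate)

noncomputable section

variable {G : ℕ} {Z : Matrix (Fin G) (Fin G) ℂ}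

/-- Dual families for the trace form. -/
theorem exists_dual (h : PM Z) : ∃ (n : ℕ) (X Y : Fin n → Matrix (Fin G ⊕ Fin G) (Fin G ⊕ Fin G) ℂ),
    (∀ i, X i ∈ LZ Z) ∧ (∀ i, Y i ∈ LZ Z) ∧
    (∀ A ∈ LZ Z, A = ∑ i, trace (A * X i) • Y i) ∧ (∀ A ∈ LZ Z, A = ∑ i, trace (A * Y i) • X i) ∧
    ∀ i j, trace (X i * Y j) = if i = j then 1 else 0 := by
  let T0 : LinearMap.BilinForm ℂ (Matrix (Fin G ⊕ Fin G) (Fin G ⊕ Fin G) ℂ) :=
    (LinearMap.mul ℂ _).compr₂ (Matrix.traceLinearMap _ ℂ ℂ)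
  let T : LinearMap.BilinForm ℂ (LZ Z) := T0.restrict (LZ Z)
  have hT' : ∀ A B : LZ Z, T A B = trace (A.1 * B.1) := fun A B => rfl
  have hT : T.Nondegenerate := by
    refine ⟨fun A hA => ?_, fun A hA => ?_⟩
    · exact Subtype.ext (nd_LZ h A.2 fun Y hY => hA ⟨Y, hY⟩)
    · refine Subtype.ext (nd_LZ h A.2 fun Y hY => ?_)
      rw [trace_mul_comm]
      exact hA ⟨Y, hY⟩
  let b := finBasis ℂ (LZ Z)
  let d := T.dualBasis hT b
  have hbd : ∀ i j, trace ((b i).1 * (d j).1) = if i = j then 1 else 0 := by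
    intro i j
    rw [trace_mul_comm]
    have h1 := LinearMap.BilinForm.apply_dualBasis_left hT b j i
    rw [hT'] at h1
    exact h1
  have hexp : ∀ A : LZ Z, A.1 = ∑ i, trace (A.1 * (b i).1) • (d i).1 := by
    intro A
    have h1 := congrArg Subtype.val (d.sum_repr A)
    rw [Submodule.coe_sum] at h1
    rw [← h1]
    refine Finset.sum_congr rfl fun i _ => ?_
    rw [h1]
    have h2 : d.repr A i = T A (b i) := LinearMap.BilinForm.dualBasis_repr_apply hT b A i
    rw [Submodule.coe_smul, h2, hT']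
  refine ⟨finrank ℂ (LZ Z), fun i => (b i).1, fun i => (d i).1, fun i => (b i).2, fun i => (d i).2,
    fun A hA => hexp ⟨A, hA⟩, fun A hA => ?_, hbd⟩
  rw [← sub_eq_zero]
  refine nd_LZ h (Submodule.sub_mem _ hA (Submodule.sum_mem _ fun i _ =>
    Submodule.smul_mem _ _ (b i).2)) fun B hB => ?_
  have e1 : B = _ := hexp ⟨B, hB⟩
  rw [e1]
  simp only [Finset.mul_sum, Matrix.mul_smul, trace_sum, trace_smul, sub_mul, trace_sub,
    Finset.sum_mul, Matrix.smul_mul, hbd, smul_eq_mul, mul_ite, mul_one, mul_zero,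
    Finset.sum_ite_eq', Finset.mem_univ, if_true, sub_self]
  exact Finset.sum_const_zero

/-- The invariance of the Casimir tensor. -/
theorem casimir {n : ℕ} {X Y : Fin n → Matrix (Fin G ⊕ Fin G) (Fin G ⊕ Fin G) ℂ}
    (hX : ∀ i, X i ∈ LZ Z) (hY : ∀ i, Y i ∈ LZ Z)
    (h1 : ∀ A ∈ LZ Z, A = ∑ i, trace (A * X i) • Y i)
    (h2 : ∀ A ∈ LZ Z, A = ∑ i, trace (A * Y i) • X i)
    (l l' : Matrix (Fin G ⊕ Fin G) (Fin G ⊕ Fin G) ℂ →ₗ[ℂ] ℂ)
    {A : Matrix (Fin G ⊕ Fin G) (Fin G ⊕ Fin G) ℂ} (hA : A ∈ LZ Z) :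
    ∑ i, (l (A * Y i - Y i * A) * l' (X i) + l (Y i) * l' (A * X i - X i * A)) = 0 := by
  have e1 : ∀ i, l (A * Y i - Y i * A) = ∑ j, trace ((A * Y i - Y i * A) * X j) * l (Y j) := by
    intro i
    conv_lhs => rw [h1 _ (LZ_br hA (hY i))]
    rw [map_sum]
    exact Finset.sum_congr rfl fun j _ => by rw [map_smul, smul_eq_mul]
  have e2 : ∀ i, l' (A * X i - X i * A) = ∑ j, trace ((A * X i - X i * A) * Y j) * l' (X j) := by
    intro i
    conv_lhs => rw [h2 _ (LZ_br hA (hX i))]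
    rw [map_sum]
    exact Finset.sum_congr rfl fun j _ => by rw [map_smul, smul_eq_mul]
  rw [Finset.sum_add_distrib]
  have e3 : ∑ i, l (A * Y i - Y i * A) * l' (X i) =
      ∑ i, ∑ j, trace ((A * Y i - Y i * A) * X j) * (l (Y j) * l' (X i)) := by
    refine Finset.sum_congr rfl fun i _ => ?_
    rw [e1, Finset.sum_mul]
    exact Finset.sum_congr rfl fun j _ => by ring
  have e4 : ∑ i, l (Y i) * l' (A * X i - X i * A) =
      ∑ i, ∑ j, trace ((A * X j - X j * A) * Y i) * (l (Y j) * l' (X i)) := by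
    rw [Finset.sum_comm]
    refine Finset.sum_congr rfl fun i _ => ?_
    rw [e2, Finset.mul_sum]
    exact Finset.sum_congr rfl fun j _ => by ring
  rw [e3, e4, ← Finset.sum_add_distrib]
  refine Finset.sum_eq_zero fun i _ => ?_
  rw [← Finset.sum_add_distrib]
  refine Finset.sum_eq_zero fun j _ => ?_
  rw [← add_mul]
  have e5 : trace ((A * Y i - Y i * A) * X j) + trace ((A * X j - X j * A) * Y i) = 0 := by
    rw [sub_mul, sub_mul, trace_sub, trace_sub]
    have e6 : trace (Y i * A * X j) = trace (A * X j * Y i) := by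
      rw [mul_assoc, trace_mul_comm]
    have e7 : trace (X j * A * Y i) = trace (A * Y i * X j) := by
      rw [mul_assoc, trace_mul_comm]
    rw [e6, e7]
    ring
  rw [e5, zero_mul]

/-- The bilinear form attached to a matrix. -/
def bM (G : ℕ) (A : Matrix (Fin G ⊕ Fin G) (Fin G ⊕ Fin G) ℂ) :
    (Fin G ⊕ Fin G → ℂ) →ₗ[ℂ] (Fin G ⊕ Fin G → ℂ) →ₗ[ℂ] ℂ := (om G).flip.comp (mulVecLin A)

theorem bM_apply (A : Matrix (Fin G ⊕ Fin G) (Fin G ⊕ Fin G) ℂ) (v w : Fin G ⊕ Fin G → ℂ) :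
    bM G A v w = om G w (A *ᵥ v) := rfl

theorem om_sp' {A : Matrix (Fin G ⊕ Fin G) (Fin G ⊕ Fin G) ℂ}
    (hA : Aᵀ * Om G ℂ + Om G ℂ * A = 0) (u v : Fin G ⊕ Fin G → ℂ) :
    om G (A *ᵥ u) v = -om G u (A *ᵥ v) := by
  have h1 : Aᵀ * Om G ℂ = -(Om G ℂ * A) := eq_neg_of_add_eq_zero_left hA
  rw [om_apply, om_apply, mulVec_mulVec, ← vecMul_transpose A u, ← dotProduct_mulVec u,
    mulVec_mulVec, h1, neg_mulVec, dotProduct_neg]

theorem bM_act {A : Matrix (Fin G ⊕ Fin G) (Fin G ⊕ Fin G) ℂ}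
    (hA : Aᵀ * Om G ℂ + Om G ℂ * A = 0) (B : Matrix (Fin G ⊕ Fin G) (Fin G ⊕ Fin G) ℂ)
    (v w : Fin G ⊕ Fin G → ℂ) :
    bM G B (A *ᵥ v) w + bM G B v (A *ᵥ w) = -om G w ((A * B - B * A) *ᵥ v) := by
  rw [bM_apply, bM_apply, om_sp' hA, sub_mulVec, map_sub, mulVec_mulVec, mulVec_mulVec]
  ring

/-- The form in four variables attached to the Casimir tensor. -/
def cas {n : ℕ} (X Y : Fin n → Matrix (Fin G ⊕ Fin G) (Fin G ⊕ Fin G) ℂ) :
    MultilinearMap ℂ (fun _ : Fin 2 ⊕ Fin 2 => Fin G ⊕ Fin G → ℂ) ℂ :=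
  ∑ i, prd (bil2 (bM G (Y i))) (bil2 (bM G (X i)))

theorem cas_apply {n : ℕ} (X Y : Fin n → Matrix (Fin G ⊕ Fin G) (Fin G ⊕ Fin G) ℂ)
    (v : Fin 2 ⊕ Fin 2 → Fin G ⊕ Fin G → ℂ) :
    cas X Y v = ∑ i, bM G (Y i) (v (Sum.inl 0)) (v (Sum.inl 1)) *
      bM G (X i) (v (Sum.inr 0)) (v (Sum.inr 1)) := by
  unfold cas
  rw [MultilinearMap.sum_apply]
  rfl

/-- The action on the Casimir form. -/
theorem cas_act {n : ℕ} (X Y : Fin n → Matrix (Fin G ⊕ Fin G) (Fin G ⊕ Fin G) ℂ)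
    {A : Matrix (Fin G ⊕ Fin G) (Fin G ⊕ Fin G) ℂ} (hA : Aᵀ * Om G ℂ + Om G ℂ * A = 0)
    (v : Fin 2 ⊕ Fin 2 → Fin G ⊕ Fin G → ℂ) :
    ∑ k, cas X Y (Function.update v k (A *ᵥ v k)) =
      -∑ i, (om G (v (Sum.inl 1)) ((A * Y i - Y i * A) *ᵥ v (Sum.inl 0)) *
        om G (v (Sum.inr 1)) (X i *ᵥ v (Sum.inr 0)) +
        om G (v (Sum.inl 1)) (Y i *ᵥ v (Sum.inl 0)) *
        om G (v (Sum.inr 1)) ((A * X i - X i * A) *ᵥ v (Sum.inr 0))) := by
  rw [Fintype.sum_sum_type, Fin.sum_univ_two, Fin.sum_univ_two]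
  simp only [cas_apply]
  rw [← Finset.sum_add_distrib, ← Finset.sum_add_distrib, ← Finset.sum_add_distrib,
    ← Finset.sum_neg_distrib]
  refine Finset.sum_congr rfl fun i _ => ?_
  have h1 := bM_act hA (Y i) (v (Sum.inl 0)) (v (Sum.inl 1))
  have h2 := bM_act hA (X i) (v (Sum.inr 0)) (v (Sum.inr 1))
  simp only [Function.update_self, Function.update_of_ne, ne_eq, reduceCtorEq, not_false_eq_true,
    Sum.inl.injEq, Sum.inr.injEq, Fin.one_eq_zero_iff, Fin.zero_eq_one_iff, OfNat.ofNat_ne_one]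
  have e1 : om G (v (Sum.inl 1)) (Y i *ᵥ v (Sum.inl 0)) =
    bM G (Y i) (v (Sum.inl 0)) (v (Sum.inl 1)) := rfl
  have e2 : om G (v (Sum.inr 1)) (X i *ᵥ v (Sum.inr 0)) =
    bM G (X i) (v (Sum.inr 0)) (v (Sum.inr 1)) := rfl
  rw [e1, e2]
  linear_combination (bM G (X i) (v (Sum.inr 0)) (v (Sum.inr 1))) * h1 +
    (bM G (Y i) (v (Sum.inl 0)) (v (Sum.inl 1))) * h2

/-- The entries of a matrix. -/
theorem entry (P : Matrix (Fin G ⊕ Fin G) (Fin G ⊕ Fin G) ℂ) (a b : Fin G ⊕ Fin G) :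
    om G (Om G ℂ *ᵥ Pi.single a 1) (P *ᵥ Pi.single b 1) = P a b := by
  have hOT : (Om G ℂ)ᵀ = -Om G ℂ := Om_transpose ℂ
  have h1 : Om G ℂ *ᵥ Pi.single a 1 = -(Pi.single a 1 ᵥ* Om G ℂ) := by
    rw [← mulVec_transpose, hOT, neg_mulVec, neg_neg]
  rw [om_apply, h1, neg_dotProduct, ← dotProduct_mulVec, mulVec_mulVec, Om_sq, neg_mulVec, one_mulVec,
    dotProduct_neg, neg_neg, single_dotProduct, one_mul, mulVec_single_one]
  rfl

/-- **The Lefschetz Lie algebra is the Hodge Lie algebra.** -/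
theorem Lef.mem {S : Matrix (Fin G ⊕ Fin G) (Fin G ⊕ Fin G) ℂ} (hS : Lef Z S) (h : PM Z)
    (hloc : ∀ U, IrS (LZ Z) U → Rk1 Z U ∧ 2 ≤ finrank ℂ U ∧ SDu Z U) : S ∈ LZ Z := by
  classical
  obtain ⟨n, X, Y, hX, hY, h1, h2, h3⟩ := exists_dual h
  -- the Casimir form is invariant
  have e : Fin 2 ⊕ Fin 2 ≃ Fin 2 × Fin 2 := Fintype.equivOfCardEq (by simp)
  have hinv : ∀ (γ : Gam (GG (LZ Z))) (v : Fin 2 ⊕ Fin 2 → Fin G ⊕ Fin G → ℂ),
      cas X Y (fun k => RZ Z γ (v k)) = cas X Y v := by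
    refine inv_gam _ fun D hD _ => ?_
    obtain ⟨A, hA, rfl⟩ := exists_GG hD
    intro v
    have h4 := cas_act X Y (h.sp hA) v
    refine h4.trans ?_
    rw [neg_eq_zero]
    let l : (Fin G ⊕ Fin G → ℂ) → (Fin G ⊕ Fin G → ℂ) →
        (Matrix (Fin G ⊕ Fin G) (Fin G ⊕ Fin G) ℂ →ₗ[ℂ] ℂ) := fun u w =>
      { toFun := fun P => om G w (P *ᵥ u)
        map_add' := fun P Q => by rw [add_mulVec, map_add]
        map_smul' := fun c P => by rw [smul_mulVec, map_smul, RingHom.id_apply] }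
    exact casimir hX hY h1 h2 (l (v (Sum.inl 0)) (v (Sum.inl 1)))
      (l (v (Sum.inr 0)) (v (Sum.inr 1))) hA
  have hk := hS.kills h hloc (m := 2) ((cas X Y).domDomCongr e) (fun γ v => by
    rw [MultilinearMap.domDomCongr_apply, MultilinearMap.domDomCongr_apply]
    exact hinv γ _)
  have hk' : cas X Y ∈ KS (mulVecLin S) (Fin 2 ⊕ Fin 2) :=
    (clo_KS (mulVecLin S)).reindex e.symm hk (cas X Y) fun v => by
      rw [MultilinearMap.domDomCongr_apply]
      congr 1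
      funext k
      simp
  have hk2 := hk' inferInstance inferInstance
  -- the entries
  have hent : ∀ a b c d, ∑ i, ((S * Y i - Y i * S) c d * X i a b +
      Y i c d * (S * X i - X i * S) a b) = 0 := by
    intro a b c d
    have h4 := hk2 (Sum.elim ![Pi.single d 1, Om G ℂ *ᵥ Pi.single c 1]
      ![Pi.single b 1, Om G ℂ *ᵥ Pi.single a 1])
    have h5 := cas_act X Y hS.sp (Sum.elim ![Pi.single d 1, Om G ℂ *ᵥ Pi.single c 1]
      ![Pi.single b 1, Om G ℂ *ᵥ Pi.single a 1])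
    have h6 := h5.symm.trans h4
    rw [neg_eq_zero] at h6
    simp only [Sum.elim_inl, Sum.elim_inr, cons_val_zero, cons_val_one, entry] at h6
    exact h6
  -- the Lie algebra is stable
  have hst1 : ∀ j, S * Y j - Y j * S ∈ LZ Z := by
    intro j
    have h4 : S * Y j - Y j * S = -∑ i, trace ((S * X i - X i * S) * Y j) • Y i := by
      ext c d
      have h5 : ∑ a, ∑ b, (∑ i, ((S * Y i - Y i * S) c d * X i a b +
          Y i c d * (S * X i - X i * S) a b)) * Y j b a = 0 :=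
        Finset.sum_eq_zero fun a _ => Finset.sum_eq_zero fun b _ => by rw [hent, zero_mul]
      have h6 : ∀ P : Matrix (Fin G ⊕ Fin G) (Fin G ⊕ Fin G) ℂ,
          ∑ a, ∑ b, P a b * Y j b a = trace (P * Y j) := by
        intro P
        simp only [trace, diag_apply, mul_apply]
      have h7 : ∑ a, ∑ b, (∑ i, ((S * Y i - Y i * S) c d * X i a b +
          Y i c d * (S * X i - X i * S) a b)) * Y j b a =
          ∑ i, ((S * Y i - Y i * S) c d * trace (X i * Y j) +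
            Y i c d * trace ((S * X i - X i * S) * Y j)) := by
        simp only [← h6, Finset.mul_sum, Finset.sum_mul]
        rw [Finset.sum_congr rfl fun a _ => Finset.sum_comm, Finset.sum_comm]
        refine Finset.sum_congr rfl fun i _ => ?_
        rw [← Finset.sum_add_distrib]
        refine Finset.sum_congr rfl fun a _ => ?_
        rw [← Finset.sum_add_distrib]
        exact Finset.sum_congr rfl fun b _ => by ring
      rw [h7, Finset.sum_add_distrib] at h5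
      simp only [h3, mul_ite, mul_one, mul_zero, Finset.sum_ite_eq', Finset.mem_univ,
        if_true] at h5
      rw [Matrix.neg_apply, Matrix.sum_apply]
      simp only [Matrix.smul_apply, smul_eq_mul]
      rw [eq_neg_iff_add_eq_zero, ← h5]
      congr 1
      exact Finset.sum_congr rfl fun i _ => by ring
    rw [h4]
    exact Submodule.neg_mem _ (Submodule.sum_mem _ fun i _ => Submodule.smul_mem _ _ (hY i))
  have hst : ∀ A ∈ LZ Z, S * A - A * S ∈ LZ Z := by
    intro A hA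
    have h4 : S * A - A * S = ∑ i, trace (A * X i) • (S * Y i - Y i * S) := by
      conv_lhs => rw [h1 A hA]
      rw [Finset.mul_sum, Finset.sum_mul, ← Finset.sum_sub_distrib]
      exact Finset.sum_congr rfl fun i _ => by rw [Matrix.mul_smul, Matrix.smul_mul, smul_sub]
    rw [h4]
    exact Submodule.sum_mem _ fun i _ => Submodule.smul_mem _ _ (hst1 i)
  -- the projection
  set t : Matrix (Fin G ⊕ Fin G) (Fin G ⊕ Fin G) ℂ := ∑ i, trace (S * Y i) • X i with ht
  have htm : t ∈ LZ Z := Submodule.sum_mem _ fun i _ => Submodule.smul_mem _ _ (hX i)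
  have htr : ∀ A ∈ LZ Z, trace ((S - t) * A) = 0 := by
    intro A hA
    have h4 : ∀ j, trace ((S - t) * Y j) = 0 := by
      intro j
      rw [sub_mul, trace_sub, ht, Finset.sum_mul, trace_sum]
      simp only [Matrix.smul_mul, trace_smul, h3, smul_eq_mul, mul_ite, mul_one, mul_zero,
        Finset.sum_ite_eq', Finset.mem_univ, if_true, sub_self]
    rw [h1 A hA, Finset.mul_sum, trace_sum]
    refine Finset.sum_eq_zero fun j _ => ?_
    rw [Matrix.mul_smul, trace_smul, h4, smul_zero]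
  obtain ⟨D, hD⟩ : ∃ D, D = S - t := ⟨_, rfl⟩
  rw [← hD] at htr
  have hDL : ∀ A ∈ LZ Z, A * D = D * A := by
    intro A hA
    have h4 : D * A - A * D ∈ LZ Z := by
      have h5 : D * A - A * D = (S * A - A * S) - (t * A - A * t) := by
        rw [hD]
        noncomm_ring
      rw [h5]
      exact Submodule.sub_mem _ (hst A hA) (LZ_br htm hA)
    have h6 := nd_LZ h h4 fun B hB => by
      have h7 : trace ((D * A - A * D) * B) = trace (D * (A * B - B * A)) := by
        rw [sub_mul, mul_sub, trace_sub, trace_sub]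
        congr 1
        · rw [mul_assoc]
        · rw [mul_assoc, trace_mul_comm, mul_assoc]
      rw [h7]
      exact htr _ (LZ_br hA hB)
    exact (sub_eq_zero.1 h6).symm
  have hDef : Lef Z D := by
    refine ⟨?_, fun F hF => ?_⟩
    · have h4 := hS.sp
      have h5 := h.sp htm
      rw [hD, transpose_sub, sub_mul, mul_sub]
      have h6 : Sᵀ * Om G ℂ - tᵀ * Om G ℂ + (Om G ℂ * S - Om G ℂ * t) =
          (Sᵀ * Om G ℂ + Om G ℂ * S) - (tᵀ * Om G ℂ + Om G ℂ * t) := by abel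
      rw [h6, h4, h5, sub_zero]
    · rw [hD, sub_mul, mul_sub, hS.comm F hF, hF t htm]
  have hD0 : D = 0 := by
    have h4 : (⊤ : Submodule ℂ (Fin G ⊕ Fin G → ℂ)) ≤ LinearMap.ker (mulVecLin D) := by
      rw [← h.cred.span]
      refine sSup_le fun U hU u hu => ?_
      obtain ⟨π, hπ1, hπ2, hπ3⟩ := h.cred U hU.2.1
      have hπL : ∀ A ∈ LZ Z, A * LinearMap.toMatrix' π = LinearMap.toMatrix' π * A := by
        intro A hA
        apply mulVec_ext
        intro w
        rw [← mulVec_mulVec, ← mulVec_mulVec, LinearMap.toMatrix'_mulVec,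
          LinearMap.toMatrix'_mulVec, hπ1 A hA]
      have hDπ := hDef.comm _ hπL
      have hDU : ∀ w ∈ U, D *ᵥ w ∈ U := by
        intro w hw
        have h5 := congrArg (fun P => P *ᵥ w) hDπ
        beta_reduce at h5
        rw [← mulVec_mulVec, ← mulVec_mulVec, LinearMap.toMatrix'_mulVec,
          LinearMap.toMatrix'_mulVec, hπ3 w hw] at h5
        rw [h5]
        exact hπ2 _
      obtain ⟨z, hz⟩ := schur_scalar hU hDL hDU
      obtain ⟨b, ⟨u0, hu0, v0, hv0, huv⟩, hb⟩ := (hloc U hU).2.2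
      have h6 := hDef.bil h (b.compl₁₂ π π) (fun A hA x y => by
        rw [LinearMap.compl₁₂_apply, LinearMap.compl₁₂_apply, hπ1 A hA, hπ1 A hA]
        exact hb A hA _ (hπ2 x) _ (hπ2 y)) u0 v0
      rw [LinearMap.compl₁₂_apply, LinearMap.compl₁₂_apply, hz u0 hu0, hz v0 hv0, map_smul π,
        map_smul π, hπ3 u0 hu0, hπ3 v0 hv0, map_smul b, LinearMap.smul_apply, map_smul (b u0),
        smul_eq_mul] at h6
      have h7 : (2 * z) * b u0 v0 = 0 := by linear_combination h6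
      have h8 : z = 0 := by
        rcases mul_eq_zero.1 h7 with h9 | h9
        · exact (mul_eq_zero.1 h9).resolve_left two_ne_zero
        · exact absurd h9 huv
      rw [LinearMap.mem_ker, mulVecLin_apply, hz u hu, h8, zero_smul]
    apply mulVec_ext
    intro w
    rw [zero_mulVec]
    exact h4 (Submodule.mem_top (x := w))
  have h9 : S = t := sub_eq_zero.1 (hD.symm.trans hD0)
  rw [h9]
  exact htm

end

end Pool.Agent.N994.FH
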