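import Mathlib
import Pool.Agent.R915.Stm2
import Pool.Agent.W546.GHC.Defs

/-!
# Varieties dominated by abelian varieties: definitions

The definitions which are used in the statement of the result, besides those of
`Pool.Agent.Y90.Defs` (abelian varieties `AV`, homomorphisms `IsHom`), `Pool.Agent.R915.Sys` (systems
of classes `Sys`) and `Pool.Agent.W546.GHC.Defs` (the forms `typeForms` of type `(p, q)`).
-/

namespace Pool.Agent.N994.FH

open Module Pool.Agent.Y90 Pool.Agent.R915 TensorProduct
open Pool.Agent.W546.GHC (typeForms)

/-- The complex conjugation on `V ⊗ ℂ`. -/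
noncomputable def conjT (V : Type) [AddCommGroup V] [Module ℚ V] : ℂ ⊗[ℚ] V →ₗ[ℚ] ℂ ⊗[ℚ] V :=
  TensorProduct.map ((starRingEnd ℂ : ℂ →+* ℂ) : ℂ →+ ℂ).toRatLinearMap LinearMap.id

/-- The cohomology in degree `i` of a smooth projective complex variety `W`. -/
structure Coh (i : ℕ) where
  /-- the cohomology group `H^i(W, ℚ)` -/
  V : Type
  [grp : AddCommGroup V]
  [mod : Module ℚ V]
  /-- the subspaces `H^(p, q)(W)` of `H^i(W, ℂ) = H^i(W, ℚ) ⊗ ℂ` -/
  hodge : ℕ → ℕ → Submodule ℂ (ℂ ⊗[ℚ] V)
  /-- the Hodge decomposition -/
  decomp : ⨆ (p : ℕ) (q : ℕ) (_ : p + q = i), hodge p q = ⊤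
  /-- the Hodge symmetry -/
  symm : ∀ p q : ℕ, ∀ x ∈ hodge p q, conjT V x ∈ hodge q p
  /-- the classes in `H^i(W, ℚ)` which restrict to zero on a dense Zariski open subset of `W` -/
  N : Submodule ℚ V

attribute [instance] Coh.grp Coh.mod

/-- The algebraic classes on complex abelian varieties, the classes on abelian varieties which
restrict to zero on dense Zariski open subsets, and known properties. -/
structure Theory where
  /-- The algebraic classes: linear combinations of the classes of algebraic cycles. By the theorems
  of Lefschetz and Markman they are a system. -/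
  alg : Sys
  /-- the classes in `H^i(X, ℚ)` which restrict to zero on a dense Zariski open subset of `X` -/
  N : ∀ (X : AV) (i : ℕ), Submodule ℚ (X.H [⋀^Fin i]→ₗ[ℚ] ℚ)
  /-- Let `τ` be an algebraic class of degree `n + i` on `P = Y × X` (with the inclusions `a`, `b` of
  the factors), and `i > n`. The image `f` of the homology class `y 0 ∧ ... ∧ y (n - 1) ∈ H_n(Y, ℚ)`
  under the correspondence `τ` restricts to zero on a dense open subset of `X`: the homology of `Y`
  in degree `n` comes from a closed subset of dimension at most `n` (Lefschetz), and `τ` can be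
  restricted to this subset, so `f` is supported on a closed subset of codimension at least
  `(i - n) / 2`. -/
  corr : ∀ {X Y P : AV} {n i : ℕ} (a : Y.H →ₗ[ℚ] P.H) (b : X.H →ₗ[ℚ] P.H), IsHom Y P a →
    IsHom X P b → Function.Bijective (fun w : Y.H × X.H => a w.1 + b w.2) → n < i →
    ∀ τ : P.H [⋀^Fin n ⊕ Fin i]→ₗ[ℚ] ℚ, alg.A P (Fin n ⊕ Fin i) τ →
    ∀ (y : Fin n → Y.H) (f : X.H [⋀^Fin i]→ₗ[ℚ] ℚ),
      (∀ x : Fin i → X.H, f x = τ (Sum.elim (fun k => a (y k)) fun l => b (x l))) → f ∈ N X i

/-- The smooth projective variety `W` is dominated by the abelian variety `X` in degree `i`: there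
are linear maps `pull : H^i(W, ℚ) → H^i(X, ℚ)` and `push` in the opposite direction, such that
* `pull` is a morphism of Hodge structures (`pullC` is its extension to `H^i(W, ℂ)`; classes in
  `H^i(X, ℂ)` are given by forms on the tangent space of `X`),
* `push` maps the classes which restrict to zero on a dense open subset of `X` to classes which
  restrict to zero on a dense open subset of `W`, and
* `push (pull w) - w` restricts to zero on a dense open subset of `W`, for all `w`.

For instance this is true, in all degrees, if there is a dominant rational map `π` from `X` to `W`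
(`pull` is `π^*`, and `push f` is a multiple of `π_* (h ^ d ∪ f)`, where `h` is the class of a
hyperplane section and `d` the dimension of the general fibre; the difference comes from the
exceptional divisors of a resolution of `π`), or if `pull` and `push` are given by algebraic
correspondences of degree zero with `push ∘ pull = id`, for instance if `W` is a product of curves of
positive genus and `X` the product of their Jacobians, or if there is a dominant rational map from
such a product of curves to `W`. -/
def IsDominated (𝒯 : Theory) (X : AV) {i : ℕ} (W : Coh i) : Prop :=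
  ∃ (pull : W.V → (X.H [⋀^Fin i]→ₗ[ℚ] ℚ)) (pullC : ℂ ⊗[ℚ] W.V → (X.T [⋀^Fin i]→ₗ[ℝ] ℂ))
    (push : (X.H [⋀^Fin i]→ₗ[ℚ] ℚ) → W.V),
    IsLinearMap ℚ pull ∧ IsLinearMap ℂ pullC ∧ IsLinearMap ℚ push ∧
    (∀ (w : W.V) (v : Fin i → X.H), pullC (1 ⊗ₜ w) (fun l => X.per (v l)) = ((pull w v : ℚ) : ℂ)) ∧
    (∀ p q : ℕ, p + q = i → ∀ x ∈ W.hodge p q, pullC x ∈ typeForms X.T i p q) ∧
    (∀ f ∈ 𝒯.N X i, push f ∈ W.N) ∧ ∀ w, push (pull w) - w ∈ W.N

/-- Grothendieck's conjecture in coniveau one for all smooth projective varieties `W` which are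
dominated by the abelian variety `X`, in all degrees `i`: if `h^(i, 0)(W) = 0` then all classes in
`H^i(W, ℚ)` restrict to zero on a dense Zariski open subset of `W` (each class on such a subset; by
finite dimension then all of `H^i(W, ℚ)` on one such subset). -/
def ConiveauOne (𝒯 : Theory) (X : AV) : Prop :=
  ∀ (i : ℕ) (W : Coh i), IsDominated 𝒯 X W → W.hodge i 0 = ⊥ → W.N = ⊤

end Pool.Agent.N994.FH
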