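import Mathlib
import Pool.Agent.N994.FH.Coh
import Pool.Agent.N178.HX.StmE
import Pool.Agent.W546.GHC.Types

/-!
# Coniveau one for varieties dominated by abelian varieties
-/

set_option linter.unusedSectionVars false

namespace Pool.Agent.N994.FH

open Module Pool.Agent.Y90 Pool.Agent.R915 TensorProduct
open Pool.Agent.W546.GHC (typeForms complexify IsHodgeSubstructure LevelLE eigSum toFn
  toFn_mem_eig eig_le_eigSum eigSum_disjoint toFn_injective)
open Pool.Agent.N178.HX (Cor GHC)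

noncomputable section

theorem conjT_conjT {V : Type} [AddCommGroup V] [Module ℚ V] (x : ℂ ⊗[ℚ] V) :
    conjT V (conjT V x) = x := by
  induction x using TensorProduct.induction_on with
  | zero => rw [map_zero, map_zero]
  | tmul c v =>
    change ((starRingEnd ℂ) ((starRingEnd ℂ) c)) ⊗ₜ[ℚ] v = _
    rw [Complex.conj_conj]
  | add x y hx hy => rw [map_add, map_add, hx, hy]

theorem Coh.zero_i {i : ℕ} (W : Coh i) (h : W.hodge i 0 = ⊥) : W.hodge 0 i = ⊥ := by
  rw [Submodule.eq_bot_iff]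
  intro x hx
  have h1 := W.symm 0 i x hx
  rw [h, Submodule.mem_bot] at h1
  rw [← conjT_conjT x, h1, map_zero]

/-- Forms on the tangent space are determined by their values on the periods. -/
theorem form_ext (X : AV) {i : ℕ} {ψ φ : X.T [⋀^Fin i]→ₗ[ℝ] ℂ}
    (h : ∀ v : Fin i → X.H, ψ (fun l => X.per (v l)) = φ (fun l => X.per (v l))) : ψ = φ := by
  have h1 : ψ.toMultilinearMap = φ.toMultilinearMap := by
    refine Pool.Agent.H204R3.CM.multilinear_ext_span _ _ (Set.range X.per) X.span fun v hv => ?_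
    choose w hw using hv
    obtain rfl : v = fun l => X.per (w l) := funext fun l => (hw l).symm
    exact h w
  exact AlternatingMap.ext fun u => congrArg (fun m : MultilinearMap ℝ (fun _ : Fin i => X.T) ℂ =>
    m u) h1

section

variable {X : AV} {i : ℕ} {W : Coh i} {pull : W.V →ₗ[ℚ] (X.H [⋀^Fin i]→ₗ[ℚ] ℚ)}
  {pullC : ℂ ⊗[ℚ] W.V →ₗ[ℂ] (X.T [⋀^Fin i]→ₗ[ℝ] ℂ)}

theorem complexify_range (h1 : ∀ (w : W.V) (v : Fin i → X.H),
      pullC (1 ⊗ₜ w) (fun l => X.per (v l)) = ((pull w v : ℚ) : ℂ)) :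
    complexify X.per (LinearMap.range pull) = LinearMap.range pullC := by
  refine le_antisymm (Submodule.span_le.2 ?_) ?_
  · rintro ψ ⟨f, ⟨w, rfl⟩, hf⟩
    refine ⟨1 ⊗ₜ w, form_ext X fun v => ?_⟩
    rw [h1, hf]
  · rintro _ ⟨x, rfl⟩
    induction x using TensorProduct.induction_on with
    | zero => rw [map_zero]; exact Submodule.zero_mem _
    | tmul c w =>
      have h2 : (c ⊗ₜ[ℚ] w : ℂ ⊗[ℚ] W.V) = c • ((1 : ℂ) ⊗ₜ[ℚ] w) := by
        rw [TensorProduct.smul_tmul', smul_eq_mul, mul_one]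
      rw [h2, map_smul]
      exact Submodule.smul_mem _ _ (Submodule.subset_span ⟨pull w, ⟨w, rfl⟩, fun v => h1 w v⟩)
    | add x y hx hy => rw [map_add]; exact Submodule.add_mem _ hx hy

variable (h1 : ∀ (w : W.V) (v : Fin i → X.H),
      pullC (1 ⊗ₜ w) (fun l => X.per (v l)) = ((pull w v : ℚ) : ℂ))
  (h2 : ∀ p q : ℕ, p + q = i → ∀ x ∈ W.hodge p q, pullC x ∈ typeForms X.T i p q)

include h1 h2

theorem hodge_range : IsHodgeSubstructure X.per (LinearMap.range pull) := by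
  unfold IsHodgeSubstructure
  refine le_antisymm ?_ (iSup_le fun p => iSup_le fun q => iSup_le fun _ => inf_le_left)
  rw [complexify_range h1]
  have h3 : LinearMap.range pullC = (⊤ : Submodule ℂ (ℂ ⊗[ℚ] W.V)).map pullC :=
    (Submodule.map_top _).symm
  conv_lhs => rw [h3, ← W.decomp]
  simp only [Submodule.map_iSup]
  refine iSup_mono fun p => iSup_mono fun q => iSup_mono fun hpq => ?_
  rintro _ ⟨x, hx, rfl⟩
  exact ⟨⟨x, rfl⟩, h2 p q hpq x hx⟩

theorem mem_eigSum (h : W.hodge i 0 = ⊥) (x : ℂ ⊗[ℚ] W.V) :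
    toFn X.T i (pullC x) ∈ eigSum X.T i {p | 1 ≤ p ∧ p + 1 ≤ i} := by
  have h3 : (⊤ : Submodule ℂ (ℂ ⊗[ℚ] W.V)) ≤
      (eigSum X.T i {p | 1 ≤ p ∧ p + 1 ≤ i}).comap ((toFn X.T i).comp pullC) := by
    rw [← W.decomp]
    refine iSup_le fun p => iSup_le fun q => iSup_le fun hpq => ?_
    by_cases hp : p = 0
    · subst hp
      obtain rfl : q = i := by omega
      rw [W.zero_i h]
      exact bot_le
    · by_cases hq : q = 0
      · subst hq
        obtain rfl : p = i := by omega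
        rw [h]
        exact bot_le
      · intro y hy
        rw [Submodule.mem_comap]
        exact eig_le_eigSum (by constructor <;> omega) hpq (toFn_mem_eig (h2 p q hpq y hy))
  exact h3 Submodule.mem_top

theorem level_range (h : W.hodge i 0 = ⊥) :
    LevelLE X.per (LinearMap.range pull) ((i : ℤ) - 2) := by
  intro p q hpq hne
  by_contra hcon
  have h3 : p = 0 ∨ q = 0 := by
    by_contra h4
    push Not at h4
    obtain ⟨h5, h6⟩ := h4
    apply hcon
    rw [abs_le]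
    constructor <;> omega
  apply hne
  rw [Submodule.eq_bot_iff]
  intro y hy
  obtain ⟨hy1, hy2⟩ := Submodule.mem_inf.1 hy
  rw [complexify_range h1] at hy1
  obtain ⟨x, rfl⟩ := hy1
  have h4 := mem_eigSum h1 h2 h x
  have h5 : toFn X.T i (pullC x) ∈ eigSum X.T i {p} :=
    eig_le_eigSum (P := {p}) rfl hpq (toFn_mem_eig hy2)
  have e1 : ∀ p' ∈ ({p | 1 ≤ p ∧ p + 1 ≤ i} : Set ℕ), p' ≤ i := fun p' hp' => by
    have := hp'.2
    omega
  have e2 : ∀ p' ∈ ({p} : Set ℕ), p' ≤ i := fun p' hp' => by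
    rw [Set.mem_singleton_iff.1 hp']
    omega
  have e3 : Disjoint ({p | 1 ≤ p ∧ p + 1 ≤ i} : Set ℕ) {p} := by
    rw [Set.disjoint_left]
    intro p' hp' hp''
    rw [Set.mem_singleton_iff] at hp''
    subst hp''
    have h7 := hp'.1
    have h8 := hp'.2
    omega
  have h6 : toFn X.T i (pullC x) = 0 := eigSum_disjoint e1 e2 e3 h4 h5
  have h7 : toFn X.T i (pullC x) = toFn X.T i 0 := by rw [h6, map_zero]
  exact toFn_injective h7

end

/-- **Coniveau one from the generalized Hodge conjecture.** -/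
theorem coniveauOne {𝒯 : Theory} {X : AV} (hG : GHC 𝒯.alg X) : ConiveauOne 𝒯 X := by
  intro i W hW h
  obtain ⟨pull', pullC', push', l1, l2, l3, h1, h2, h3, h4⟩ := hW
  obtain ⟨pull, rfl⟩ : ∃ f : W.V →ₗ[ℚ] (X.H [⋀^Fin i]→ₗ[ℚ] ℚ), pull' = f := ⟨l1.mk' pull', rfl⟩
  obtain ⟨pullC, rfl⟩ : ∃ f : ℂ ⊗[ℚ] W.V →ₗ[ℂ] (X.T [⋀^Fin i]→ₗ[ℝ] ℂ), pullC' = f :=
    ⟨l2.mk' pullC', rfl⟩
  obtain ⟨push, rfl⟩ : ∃ f : (X.H [⋀^Fin i]→ₗ[ℚ] ℚ) →ₗ[ℚ] W.V, push' = f := ⟨l3.mk' push', rfl⟩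
  rw [Submodule.eq_top_iff']
  intro w
  have h5 : w = push (pull w) - (push (pull w) - w) := by abel
  rw [h5]
  refine Submodule.sub_mem _ (h3 _ ?_) (h4 w)
  by_cases hi : i < 2
  · have h6 := mem_eigSum h1 h2 h (1 ⊗ₜ w)
    have h7 : ({p | 1 ≤ p ∧ p + 1 ≤ i} : Set ℕ) = ∅ := by
      rw [Set.eq_empty_iff_forall_notMem]
      rintro p ⟨h8, h9⟩
      omega
    rw [h7] at h6
    have h8 : toFn X.T i (pullC (1 ⊗ₜ w)) = 0 := eigSum_disjoint (P := ∅) (P' := ∅)
      (fun p hp => absurd hp (Set.notMem_empty p)) (fun p hp => absurd hp (Set.notMem_empty p))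
      (Set.disjoint_left.2 fun p hp => absurd hp (Set.notMem_empty p)) h6 h6
    have h9 : pullC (1 ⊗ₜ w) = 0 := toFn_injective (h8.trans (map_zero _).symm)
    have h10 : pull w = 0 := by
      ext v
      have h11 := h1 w v
      rw [h9, AlternatingMap.zero_apply] at h11
      rw [AlternatingMap.zero_apply]
      exact_mod_cast h11.symm
    rw [h10]
    exact Submodule.zero_mem _
  · obtain ⟨n, rfl⟩ : ∃ n, i = n + 2 * 1 := ⟨i - 2, by omega⟩
    have h6 := hG n 1 (LinearMap.range pull) (hodge_range h1 h2) (by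
      have h7 := level_range h1 h2 h
      have h8 : (((n + 2 * 1 : ℕ) : ℤ) - 2) = n := by push_cast; ring
      rwa [h8] at h7) ⟨w, rfl⟩
    refine (Submodule.span_le.2 ?_ : Cor 𝒯.alg X n (n + 2 * 1) ≤ 𝒯.N X (n + 2 * 1)) h6
    rintro f ⟨Y, P, a, b, τ, y, ha, hb, hab, hτ, hf⟩
    exact 𝒯.corr a b ha hb hab (by omega) τ hτ y f hf

end

end Pool.Agent.N994.FH
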