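import Mathlib
import Pool.Agent.N994.FH.C

/-!
# Simple abelian varieties of the first and second type with elements of rank one
-/

set_option linter.unusedSectionVars false

namespace Pool.Agent.N994.FH

open Matrix Module Pool.Agent.W437.HC Pool.Agent.W437.HD Pool.Agent.TH504.CB Pool.Agent.Y90
open Pool.Agent.R915 Pool.Agent.N994.PG
open Pool.Agent.W548.Odd hiding cv
open Pool.Agent.H204R3.CM (IsHodge)
open Pool.Agent.H204R3.SP (Kills bil2 IsTate)
open Pool.Agent.W437.HP (cK cK_mul cK_one)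

noncomputable section

variable {g : ℕ} {Z : Matrix (Fin g) (Fin g) ℂ}

/-- The commutant of the Lie algebra is spanned by the rational endomorphisms. -/
theorem comm_span {S : Matrix (Fin g ⊕ Fin g) (Fin g ⊕ Fin g) ℂ}
    (hS : ∀ R : Matrix (Fin g ⊕ Fin g) (Fin g ⊕ Fin g) ℚ, qm R * DZ Z = DZ Z * qm R →
      S * qm R = qm R * S) {F : Matrix (Fin g ⊕ Fin g) (Fin g ⊕ Fin g) ℂ}
    (hF : ∀ X ∈ LZ Z, X * F = F * X) : S * F = F * S := by
  let W : Submodule ℚ ℂ := Submodule.span ℚ (Set.range fun p : (Fin g ⊕ Fin g) × (Fin g ⊕ Fin g) =>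
    F p.1 p.2)
  have : FiniteDimensional ℚ W := FiniteDimensional.span_of_finite ℚ (Set.finite_range _)
  obtain ⟨m, c, l, hl⟩ := exists_coord W
  have h1 : F = ∑ j, c j • qm (F.map (l j)) := by
    ext i k
    rw [Matrix.sum_apply]
    exact hl _ (Submodule.subset_span ⟨(i, k), rfl⟩)
  have h2 : ∀ l : ℂ →ₗ[ℚ] ℚ, qm (F.map l) * DZ Z = DZ Z * qm (F.map l) := by
    intro l
    ext i j
    rw [← sub_eq_zero]
    apply eq_zero_of_lam
    intro p
    have h3 := hF _ (map_mem (Z := Z) ((Algebra.linearMap ℚ ℂ).comp p))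
    have h4 : (DZ Z).map ((Algebra.linearMap ℚ ℂ).comp p) = qm ((DZ Z).map p) := rfl
    rw [h4] at h3
    have h5 := congrArg (fun X : Matrix (Fin g ⊕ Fin g) (Fin g ⊕ Fin g) ℂ => X.map l) h3
    beta_reduce at h5
    unfold qm at h5
    rw [lmul_right, lmul_left] at h5
    have h6 := congrFun (congrFun h5 i) j
    have h7 : ((qm (F.map l) * DZ Z).map p) i j = ((F.map l) * (DZ Z).map p) i j := by
      unfold qm
      rw [lmul_left]
    have h8 : ((DZ Z * qm (F.map l)).map p) i j = ((DZ Z).map p * (F.map l)) i j := by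
      unfold qm
      rw [lmul_right]
    rw [map_sub, sub_eq_zero]
    exact h7.trans (h6.symm.trans h8.symm)
  rw [h1, Finset.mul_sum, Finset.sum_mul]
  refine Finset.sum_congr rfl fun j _ => ?_
  rw [Matrix.mul_smul, Matrix.smul_mul, hS _ (h2 (l j))]

/-- The complexification of a space of endomorphisms. -/
def gC (𝔤 : Submodule ℚ (Module.End ℚ (Fin g ⊕ Fin g → ℚ))) :
    Submodule ℂ (Matrix (Fin g ⊕ Fin g) (Fin g ⊕ Fin g) ℂ) :=
  Submodule.span ℂ ((fun a => qm (LinearMap.toMatrix' a)) '' (𝔤 : Set _))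

theorem gC_br {𝔤 : Submodule ℚ (Module.End ℚ (Fin g ⊕ Fin g → ℚ))}
    (h : ∀ a ∈ 𝔤, ∀ b ∈ 𝔤, a * b - b * a ∈ 𝔤) : ∀ A ∈ gC 𝔤, ∀ C ∈ gC 𝔤, A * C - C * A ∈ gC 𝔤 := by
  intro A hA C hC
  induction hA using Submodule.span_induction with
  | mem A hA =>
    obtain ⟨a, ha, rfl⟩ := hA
    induction hC using Submodule.span_induction with
    | mem C hC =>
      obtain ⟨b, hb, rfl⟩ := hC
      refine Submodule.subset_span ⟨a * b - b * a, h a ha b hb, ?_⟩
      beta_reduce
      rw [map_sub, LinearMap.toMatrix'_mul, LinearMap.toMatrix'_mul, qm_sub, qm_mul, qm_mul]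
    | zero =>
      rw [mul_zero, zero_mul, sub_zero]
      exact Submodule.zero_mem _
    | add C C' _ _ h1 h2 =>
      have h3 := Submodule.add_mem _ h1 h2
      convert h3 using 1
      rw [mul_add, add_mul]
      abel
    | smul c C _ h1 =>
      have h3 := Submodule.smul_mem _ c h1
      convert h3 using 1
      rw [Matrix.mul_smul, Matrix.smul_mul, smul_sub]
  | zero =>
    rw [mul_zero, zero_mul, sub_zero]
    exact Submodule.zero_mem _
  | add A A' _ _ h1 h2 =>
    have h3 := Submodule.add_mem _ h1 h2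
    convert h3 using 1
    rw [mul_add, add_mul]
    abel
  | smul c A _ h1 =>
    have h3 := Submodule.smul_mem _ c h1
    convert h3 using 1
    rw [Matrix.mul_smul, Matrix.smul_mul, smul_sub]

/-- Rational points of the complexification. -/
theorem mem_of_gC {𝔤 : Submodule ℚ (Module.End ℚ (Fin g ⊕ Fin g → ℚ))}
    {s : Module.End ℚ (Fin g ⊕ Fin g → ℚ)} (hs : qm (LinearMap.toMatrix' s) ∈ gC 𝔤) : s ∈ 𝔤 := by
  by_contra hcon
  obtain ⟨f, hf, hf0⟩ : ∃ f : Module.End ℚ (Fin g ⊕ Fin g → ℚ) →ₗ[ℚ] ℚ, f s ≠ 0 ∧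
      ∀ a ∈ 𝔤, f a = 0 := by
    obtain ⟨f, hf, hf0⟩ := Submodule.exists_le_ker_of_notMem hcon
    exact ⟨f, hf, fun a ha => hf0 ha⟩
  let F : Matrix (Fin g ⊕ Fin g) (Fin g ⊕ Fin g) ℂ →ₗ[ℂ] ℂ :=
    { toFun := fun P => ∑ i, ∑ j, P i j * ((f (Matrix.toLin' (Matrix.single i j 1)) : ℚ) : ℂ)
      map_add' := fun P Q => by
        simp only [Matrix.add_apply, add_mul, Finset.sum_add_distrib]
      map_smul' := fun c P => by
        simp only [Matrix.smul_apply, smul_eq_mul, RingHom.id_apply, Finset.mul_sum, mul_assoc] }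
  have hF : ∀ a : Module.End ℚ (Fin g ⊕ Fin g → ℚ), F (qm (LinearMap.toMatrix' a)) =
      ((f a : ℚ) : ℂ) := by
    intro a
    have h1 : a = ∑ i, ∑ j, (LinearMap.toMatrix' a i j) •
        Matrix.toLin' (Matrix.single i j (1 : ℚ)) := by
      conv_lhs => rw [← Matrix.toLin'_toMatrix' a, Matrix.matrix_eq_sum_single
        (LinearMap.toMatrix' a)]
      simp only [map_sum]
      refine Finset.sum_congr rfl fun i _ => Finset.sum_congr rfl fun j _ => ?_
      rw [← map_smul, Matrix.smul_single, smul_eq_mul, mul_one]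
    conv_rhs => rw [h1]
    simp only [map_sum, map_smul, smul_eq_mul]
    push_cast
    rfl
  have h1 : gC 𝔤 ≤ LinearMap.ker F := by
    refine Submodule.span_le.2 ?_
    rintro _ ⟨a, ha, rfl⟩
    change F _ = 0
    rw [hF, hf0 a ha, Rat.cast_zero]
  have h2 : F _ = 0 := h1 hs
  rw [hF] at h2
  exact hf (Rat.cast_injective (h2.trans Rat.cast_zero.symm))

/-- The complexification of a Lie algebra which contains the complex structure. -/
theorem LZ_le_gC (h : PM Z) {𝔤 : Submodule ℚ (Module.End ℚ (Fin g ⊕ Fin g → ℚ))}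
    (hg : HodgeLie (AVZ h) 𝔤) : LZ Z ≤ gC 𝔤 := by
  obtain ⟨hbr, n, r, a, ha, hJ⟩ := hg
  have h1 : ∀ v : Fin g ⊕ Fin g → ℚ, Complex.I • (DZ Z *ᵥ cv v) =
      ∑ i, (r i : ℂ) • (qm (LinearMap.toMatrix' (a i)) *ᵥ cv v) := by
    intro v
    have h2 : ∀ i, (AVZ h).per (a i v) = perC Z (qm (LinearMap.toMatrix' (a i)) *ᵥ cv v) := by
      intro i
      change perOne Z _ = _
      rw [← perC_rat]
      congr 1
      funext k
      have h3 : a i v = LinearMap.toMatrix' (a i) *ᵥ v := by rw [LinearMap.toMatrix'_mulVec]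
      rw [h3]
      simp [mulVec, dotProduct, cv, qm]
    have h3 : (AVZ h).per v = perC Z (DZ Z *ᵥ cv v) := by
      rw [perC_DZ h]
      exact (perC_rat v).symm
    have h4 := hJ v
    rw [h3, ← map_smul, Finset.sum_congr rfl fun i _ => by rw [h2 i, ← map_smul], ← map_sum,
      ← sub_eq_zero, ← map_sub] at h4
    -- the difference is real
    let x : Fin g ⊕ Fin g → ℝ := fun k => (JR Z *ᵥ fun j => ((v j : ℚ) : ℝ)) k -
      ∑ i, r i * ((a i v k : ℚ) : ℝ)
    have h5 : Complex.I • (DZ Z *ᵥ cv v) -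
        ∑ i, (r i : ℂ) • (qm (LinearMap.toMatrix' (a i)) *ᵥ cv v) =
        fun k => ((x k : ℝ) : ℂ) := by
      funext k
      have h6 : (Complex.I • (DZ Z *ᵥ cv v)) k =
          (((JR Z *ᵥ fun j => ((v j : ℚ) : ℝ)) k : ℝ) : ℂ) := by
        rw [Pi.smul_apply, smul_eq_mul]
        simp only [mulVec, dotProduct]
        rw [Finset.mul_sum]
        push_cast
        refine Finset.sum_congr rfl fun j _ => ?_
        change Complex.I * (((-Complex.I) * ((JR Z k j : ℝ) : ℂ)) * ((v j : ℚ) : ℂ)) = _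
        have h7 : Complex.I * Complex.I = -1 := Complex.I_mul_I
        linear_combination (-((JR Z k j : ℝ) : ℂ) * ((v j : ℚ) : ℂ)) * h7
      have h7 : ∀ i, ((r i : ℂ) • (qm (LinearMap.toMatrix' (a i)) *ᵥ cv v)) k =
          ((r i * ((a i v k : ℚ) : ℝ) : ℝ) : ℂ) := by
        intro i
        rw [Pi.smul_apply, smul_eq_mul]
        have h3 : a i v = LinearMap.toMatrix' (a i) *ᵥ v := by rw [LinearMap.toMatrix'_mulVec]
        rw [h3]
        simp [mulVec, dotProduct, cv, qm]
      rw [Pi.sub_apply, h6, Finset.sum_apply, Finset.sum_congr rfl fun i _ => h7 i]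
      change _ = (((JR Z *ᵥ fun j => ((v j : ℚ) : ℝ)) k -
        ∑ i, r i * ((a i v k : ℚ) : ℝ) : ℝ) : ℂ)
      rw [Complex.ofReal_sub, Complex.ofReal_sum]
    rw [h5, perC_real] at h4
    have h6 : x = 0 := by
      rw [← invR_perR h.det x, h4, map_zero]
    rw [← sub_eq_zero, h5, h6]
    funext k
    simp
  have h2 : DZ Z = ∑ i, ((-Complex.I) * (r i : ℂ)) • qm (LinearMap.toMatrix' (a i)) := by
    ext k j
    have h3 := congrFun (h1 (Pi.single j 1)) k
    have h4 : (cv (Pi.single j 1) : Fin g ⊕ Fin g → ℂ) = Pi.single j 1 := by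
      funext i
      by_cases hi : i = j
      · subst hi
        simp [cv]
      · simp [cv, Pi.single_eq_of_ne hi]
    rw [h4, Pi.smul_apply, Finset.sum_apply, mulVec_single_one] at h3
    simp only [Pi.smul_apply, mulVec_single_one, smul_eq_mul] at h3
    rw [Matrix.sum_apply]
    simp only [Matrix.smul_apply, smul_eq_mul, mul_assoc]
    rw [← Finset.mul_sum]
    have h5 : DZ Z k j = (-Complex.I) * (Complex.I * DZ Z k j) := by
      rw [← mul_assoc, neg_mul, Complex.I_mul_I, neg_neg, one_mul]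
    rw [h5]
    congr 1
  refine LZ_le (fun σ => ?_) (gC_br hbr)
  have h3 : DS Z σ = ∑ i, σ ((-Complex.I) * (r i : ℂ)) • qm (LinearMap.toMatrix' (a i)) := by
    unfold DS
    conv_lhs => rw [h2]
    ext k j
    simp only [Matrix.map_apply, Matrix.sum_apply, Matrix.smul_apply, smul_eq_mul, map_sum, map_mul,
      qm, map_ratCast]
  rw [h3]
  exact Submodule.sum_mem _ fun i _ => Submodule.smul_mem _ _ (Submodule.subset_span ⟨a i, ha i, rfl⟩)

/-- **The Hodge group is the Lefschetz group.** -/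
theorem fullHodge (h : PM Z) {a : Module.End ℚ (Fin g ⊕ Fin g → ℚ)} (ha : RealMax (AVZ h) a)
    (hloc : ∀ U, IrS (LZ Z) U → Rk1 Z U ∧ 2 ≤ finrank ℂ U ∧ SDu Z U) : FullHodge (AVZ h) := by
  refine ⟨⟨a, ha⟩, fun 𝔤 hg s hs1 hs2 => ?_⟩
  have hL : Lef Z (qm (LinearMap.toMatrix' s)) := by
    refine ⟨?_, fun F hF => comm_span (fun R hR => ?_) hF⟩
    · obtain ⟨l, hl⟩ : ∃ l : ℂ →ₗ[ℚ] ℚ, l 1 = 1 := by
        obtain ⟨l, hl⟩ := LinearMap.exists_leftInverse_of_injective (Algebra.linearMap ℚ ℂ)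
          (LinearMap.ker_eq_bot.2 (FaithfulSMul.algebraMap_injective ℚ ℂ))
        refine ⟨l, ?_⟩
        have h1 := LinearMap.congr_fun hl 1
        rwa [LinearMap.comp_apply, LinearMap.id_apply, Algebra.linearMap_apply, map_one] at h1
      have hlq : ∀ q : ℚ, l (q : ℂ) = q := by
        intro q
        have h1 : (q : ℂ) = q • (1 : ℂ) := by rw [Rat.smul_def, mul_one]
        rw [h1, map_smul, hl, smul_eq_mul, mul_one]
      have hE := h.cht.hodge_rat gal_LZ DZ_mem (F := bil2 (om g))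
        (fun X hX => act_of_kills fun v => by
          rw [Fin.sum_univ_two]
          exact h.om_sp hX (v 0) (v 1)) l
      have h0 : ∀ u v : Fin g ⊕ Fin g → ℚ, om g (cv u) (cv v) =
          ((u ⬝ᵥ (Om g ℚ *ᵥ v) : ℚ) : ℂ) := by
        intro u v
        rw [om_apply]
        rw [Om_qm]
        simp [mulVec, dotProduct, cv, qm]
      have h1 : ∀ u v : Fin g ⊕ Fin g → ℚ, ratA (bil2 (om g)) l ![u, v] =
          2 * (u ⬝ᵥ (Om g ℚ *ᵥ v)) := by
        intro u v
        have h2 : ∀ w : Fin 2 → (Fin g ⊕ Fin g → ℚ), bil2 (om g) (fun k => cv (w k)) =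
            om g (cv (w 0)) (cv (w 1)) := fun w => rfl
        have h3 : (Finset.univ : Finset (Equiv.Perm (Fin 2))) = {1, Equiv.swap 0 1} := by decide
        have h4 : (1 : Equiv.Perm (Fin 2)) ≠ Equiv.swap 0 1 := by decide
        rw [ratA_apply, h3, Finset.sum_pair h4, h2, h2, Equiv.Perm.sign_one,
          Equiv.Perm.sign_swap Fin.zero_ne_one, Equiv.swap_apply_left, Equiv.swap_apply_right,
          Equiv.Perm.one_apply, Equiv.Perm.one_apply]
        change _ * l (om g (cv u) (cv v)) + _ * l (om g (cv v) (cv u)) = _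
        rw [om_anti (cv v) (cv u), map_neg, h0, hlq]
        push_cast
        ring
      have h2 : ∀ u v : Fin g ⊕ Fin g → ℚ, om g (cv (s u)) (cv v) + om g (cv u) (cv (s v)) = 0 := by
        intro u v
        have h3 := hs2 _ hE u v
        rw [h1, h1, ← mul_add] at h3
        have h4 := (mul_eq_zero.1 h3).resolve_left two_ne_zero
        rw [h0, h0, ← Rat.cast_add, h4, Rat.cast_zero]
      have h3 : ∀ v : Fin g ⊕ Fin g → ℚ, (cv (s v) : Fin g ⊕ Fin g → ℂ) =
          qm (LinearMap.toMatrix' s) *ᵥ cv v := by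
        intro v
        have h3 : s v = LinearMap.toMatrix' s *ᵥ v := by rw [LinearMap.toMatrix'_mulVec]
        rw [h3]
        funext k
        simp [mulVec, dotProduct, cv, qm]
      have h4 : ∀ i : Fin g ⊕ Fin g, (cv (Pi.single i 1) : Fin g ⊕ Fin g → ℂ) =
          Pi.single i 1 := by
        intro j
        funext i
        by_cases hi : i = j
        · subst hi
          simp [cv]
        · simp [cv, Pi.single_eq_of_ne hi]
      ext i j
      have h5 := h2 (Pi.single i 1) (Pi.single j 1)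
      rw [h3, h3, h4, h4, om_apply, om_apply, mulVec_mulVec, ← vecMul_transpose,
        ← dotProduct_mulVec, mulVec_mulVec, ← dotProduct_add, ← add_mulVec,
        single_one_dotProduct, mulVec_single_one] at h5
      exact h5
    · have h1 := hs1 _ ((hom_iff h R).2 hR)
      have h2 := congrArg LinearMap.toMatrix' h1
      rw [LinearMap.toMatrix'_mul, LinearMap.toMatrix'_mul, LinearMap.toMatrix'_toLin'] at h2
      rw [← qm_mul, h2, qm_mul]
  exact mem_of_gC (LZ_le_gC h hg (hL.mem h hloc))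

end

end Pool.Agent.N994.FH
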