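import Mathlib
import Pool.Agent.N994.FH.D
import Pool.Agent.N994.PG.Fin

/-!
# The Hodge group of the simple abelian varieties with small or generic period fields
-/

set_option linter.unusedSectionVars false

namespace Pool.Agent.N994.FH

open Matrix Module Pool.Agent.W437.HC Pool.Agent.W437.HD Pool.Agent.TH504.CB Pool.Agent.Y90
open Pool.Agent.R915 Pool.Agent.N994.PG Polynomial
open Pool.Agent.W548.Odd hiding cv
open Pool.Agent.H204R3.CM (IsHodge)

noncomputable section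

/-- Isomorphisms (up to isogeny). -/
def IsIso (X Y : AV) (A : X.H ≃ₗ[ℚ] Y.H) : Prop :=
  IsHom X Y A.toLinearMap ∧ IsHom Y X A.symm.toLinearMap

theorem IsIso.symm {X Y : AV} {A : X.H ≃ₗ[ℚ] Y.H} (h : IsIso X Y A) : IsIso Y X A.symm :=
  ⟨h.2, h.1⟩

variable {X Y : AV} {A : X.H ≃ₗ[ℚ] Y.H}

theorem IsIso.conj (hA : IsIso X Y A) {f : Module.End ℚ X.H} (hf : IsHom X X f) :
    IsHom Y Y (A.conjAlgEquiv ℚ f) := by
  have h1 : IsHom Y X (f.comp A.symm.toLinearMap) := IsHom.comp' hf hA.2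
  have h2 : IsHom Y Y (A.toLinearMap.comp (f.comp A.symm.toLinearMap)) := IsHom.comp' hA.1 h1
  exact h2

theorem IsIso.realMax (hA : IsIso X Y A) {a : Module.End ℚ X.H} (h : RealMax X a) :
    RealMax Y (A.conjAlgEquiv ℚ a) := by
  obtain ⟨h1, h2, h3⟩ := h
  have hm : minpoly ℚ (A.conjAlgEquiv ℚ a) = minpoly ℚ a :=
    minpoly.algEquiv_eq (A.conjAlgEquiv ℚ) a
  refine ⟨hA.conj h1, fun z hz => h2 z (by rwa [hm] at hz), fun b hb hba => ?_⟩
  have h4 : b = A.conjAlgEquiv ℚ ((A.conjAlgEquiv ℚ).symm b) :=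
    ((A.conjAlgEquiv ℚ).apply_symm_apply b).symm
  have h5 := h3 ((A.conjAlgEquiv ℚ).symm b) (hA.symm.conj hb) (by
    apply (A.conjAlgEquiv ℚ).injective
    rw [map_mul, map_mul, ← h4, hba])
  rw [h4]
  have h6 : (A.conjAlgEquiv ℚ).toAlgHom ((A.conjAlgEquiv ℚ).symm b) ∈
      (Algebra.adjoin ℚ {a}).map (A.conjAlgEquiv ℚ).toAlgHom :=
    Subalgebra.mem_map.2 ⟨_, h5, rfl⟩
  rw [AlgHom.map_adjoin, Set.image_singleton] at h6
  exact h6

theorem IsIso.per (hA : IsIso X Y A) {k : IntermediateField ℚ ℂ} (h : PeriodsIn X k) :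
    PeriodsIn Y k := h.factor hA.2 A.symm.injective

theorem IsIso.isSub (hA : IsIso X Y A) {U : Submodule ℚ Y.H} (hU : IsSub Y U) :
    IsSub X (U.comap A.toLinearMap) := by
  obtain ⟨Ψ, hΨ⟩ := hA.2
  have h1 : Submodule.span ℝ (X.per '' (U.comap A.toLinearMap : Submodule ℚ X.H)) =
      (Submodule.span ℝ (Y.per '' U)).map (Ψ.restrictScalars ℝ) := by
    rw [Submodule.map_span]
    congr 1
    ext t
    constructor
    · rintro ⟨v, hv, rfl⟩
      refine ⟨Y.per (A v), ⟨A v, hv, rfl⟩, ?_⟩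
      have h2 := hΨ (A v)
      rw [LinearMap.coe_restrictScalars, h2]
      exact congrArg X.per (A.symm_apply_apply v)
    · rintro ⟨_, ⟨w, hw, rfl⟩, rfl⟩
      refine ⟨A.symm w, ?_, (hΨ w).symm⟩
      change A (A.symm w) ∈ U
      rwa [LinearEquiv.apply_symm_apply]
  intro x hx
  rw [h1] at hx ⊢
  obtain ⟨y, hy, rfl⟩ := hx
  refine ⟨Complex.I • y, hU y hy, ?_⟩
  exact map_smul Ψ Complex.I y

theorem IsIso.simple (hA : IsIso X Y A) (h : IsSimple X) : IsSimple Y := by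
  obtain ⟨⟨y, hy⟩, h2⟩ := h
  refine ⟨⟨A y, fun h0 => hy ((LinearEquiv.map_eq_zero_iff A).1 h0)⟩, fun U hU => ?_⟩
  rcases h2 _ (hA.isSub hU) with h3 | h3
  · left
    rw [Submodule.eq_bot_iff] at h3 ⊢
    intro u hu
    have h4 := h3 (A.symm u) (by
      change A (A.symm u) ∈ U
      rwa [LinearEquiv.apply_symm_apply])
    rwa [LinearEquiv.map_eq_zero_iff] at h4
  · right
    rw [Submodule.eq_top_iff'] at h3 ⊢
    intro u
    have h4 := h3 (A.symm u)
    change A (A.symm u) ∈ U at h4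
    rwa [LinearEquiv.apply_symm_apply] at h4

theorem IsIso.fullHodge (hA : IsIso X Y A) (h : FullHodge X) : FullHodge Y := by
  obtain ⟨⟨a, ha⟩, h2⟩ := h
  refine ⟨⟨_, hA.realMax ha⟩, fun 𝔤 hg s hs1 hs2 => ?_⟩
  let c := A.conjAlgEquiv ℚ
  have h3 : HodgeLie X (𝔤.comap c.toLinearMap) := by
    obtain ⟨hbr, n, r, b, hb, hJ⟩ := hg
    refine ⟨fun x hx y hy => ?_, n, r, fun i => c.symm (b i), fun i => ?_, fun v => ?_⟩
    · have h4 := hbr _ hx _ hy
      change c (x * y - y * x) ∈ 𝔤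
      rw [map_sub, map_mul, map_mul]
      exact h4
    · change c (c.symm (b i)) ∈ 𝔤
      rw [AlgEquiv.apply_symm_apply]
      exact hb i
    · obtain ⟨Ψ, hΨ⟩ := hA.2
      have h4 := congrArg Ψ (hJ (A v))
      rw [map_smul, map_sum] at h4
      simp only [map_smul, hΨ] at h4
      have h5 : A.symm.toLinearMap (A v) = v := A.symm_apply_apply v
      rw [h5] at h4
      exact h4
  have h4 := h2 _ h3 (c.symm s) (fun f hf => by
    apply c.injective
    rw [map_mul, map_mul, AlgEquiv.apply_symm_apply]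
    exact hs1 _ (hA.conj hf)) (fun E hE u v => by
    obtain ⟨Ψ, hΨ⟩ := hA.2
    have h5 : IsHodge Y.per (E.compLinearMap A.symm.toLinearMap) :=
      isHodge_comp A.symm.toLinearMap Ψ hΨ hE
    have h6 := hs2 _ h5 (A u) (A v)
    rw [AlternatingMap.compLinearMap_apply, AlternatingMap.compLinearMap_apply] at h6
    have h7 : ∀ x y : Y.H, (fun i => A.symm.toLinearMap ((![x, y] : Fin 2 → Y.H) i)) =
        ![A.symm x, A.symm y] := by
      intro x y
      funext i
      fin_cases i <;> rfl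
    change E (fun i => A.symm.toLinearMap ((![s (A u), A v] : Fin 2 → Y.H) i)) +
      E (fun i => A.symm.toLinearMap ((![A u, s (A v)] : Fin 2 → Y.H) i)) = 0 at h6
    rw [h7, h7, LinearEquiv.symm_apply_apply, LinearEquiv.symm_apply_apply] at h6
    exact h6)
  change c (c.symm s) ∈ 𝔤 at h4
  rwa [AlgEquiv.apply_symm_apply] at h4

/-- **The Hodge group of the simple abelian varieties of Albert type I or II with small or generic
period fields is equal to the Lefschetz group.** -/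
theorem fullHodge_of_periods {Y : AV} (hY : IsSimple Y) (ha : ∃ a, RealMax Y a)
    (hp : SmallPeriods Y ∨ GenericPeriods Y) : FullHodge Y := by
  obtain ⟨a, ha⟩ := ha
  obtain ⟨G, Z, h, A, h1, h2⟩ := exists_model Y
  have hA : IsIso Y (AVZ h) A := ⟨h1, h2⟩
  have hs := simple_AVZ h (hA.simple hY)
  have hb := hA.realMax ha
  have hG : 0 < G := by
    obtain ⟨y, hy⟩ := (hA.simple hY).1
    by_contra hcon
    have h3 : G = 0 := by omega
    subst h3
    exact hy (funext fun i => (i.elim (fun j => j.elim0) fun j => j.elim0))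
  have hf : finrank ℚ (AVZ h).H = finrank ℚ Y.H := A.finrank_eq.symm
  have hm : minpoly ℚ (A.conjAlgEquiv ℚ a) = minpoly ℚ a :=
    minpoly.algEquiv_eq (A.conjAlgEquiv ℚ) a
  have hld : ∀ U, IrS (LZ Z) U → LD h U := by
    intro U hU
    rcases hp with hp | hp
    · refine SmallPeriods.ld hs hG ?_ hU
      obtain ⟨k, hk0, hk, hc⟩ := hp
      refine ⟨k, hk0, hA.per hk, ?_⟩
      rcases hc with hc | hc | hc
      · exact Or.inr (Or.inl ⟨by omega, _, hb⟩)
      · exact Or.inr (Or.inl ⟨hc.1, _, hb⟩)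
      · exact Or.inr (Or.inr ⟨hc.1, by rw [hf]; exact hc.2⟩)
    · refine GenericPeriods.ld hs hG ?_ hU
      obtain ⟨k, hk, hc⟩ := hp
      refine ⟨k, hA.per hk, ?_⟩
      rcases hc with ⟨h3, h4⟩ | ⟨h3, h4, h5⟩
      · refine Or.inl ⟨h3, ?_⟩
        rw [hf]
        rcases h4 with h4 | ⟨b, hb', h4⟩
        · exact Or.inl h4
        · refine Or.inr ⟨_, hA.realMax hb', ?_⟩
          rw [show minpoly ℚ (A.conjAlgEquiv ℚ b) = minpoly ℚ b from
            minpoly.algEquiv_eq (A.conjAlgEquiv ℚ) b]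
          exact h4
      · refine Or.inr ⟨h3, by rw [hf]; exact h4, Or.inl ⟨_, hb⟩⟩
  refine hA.symm.fullHodge (fullHodge h hb fun U hU => ?_)
  have h3 := hld U hU
  exact ⟨h3.rk, h3.dim, (altF_rf h hs hG (hb.rf h) hU).sdu⟩

end

end Pool.Agent.N994.FH
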