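import Mathlib

/-!
# Primitive elements in commutative subalgebras of division algebras
-/

set_option linter.unusedSectionVars false

namespace Pool.Agent.N994.FH

open Module

theorem exists_gen {A : Type} [Ring A] [Algebra ℚ A] [FiniteDimensional ℚ A] [Nontrivial A]
    {a b : A} (hab : a * b = b * a)
    (hdiv : ∀ x ∈ Algebra.adjoin ℚ {a, b}, x ≠ 0 → ∀ y, x * y = 0 → y = 0) :
    ∃ c, Algebra.adjoin ℚ {c} = Algebra.adjoin ℚ {a, b} := by
  have hcomm : ∀ x ∈ Algebra.adjoin ℚ {a, b}, ∀ y ∈ Algebra.adjoin ℚ {a, b}, x * y = y * x := by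
    intro x hx y hy
    have h1 : ∀ u ∈ ({a, b} : Set A), ∀ v ∈ ({a, b} : Set A), u * v = v * u := by
      rintro u (rfl | rfl) v (rfl | rfl)
      · rfl
      · exact hab
      · exact hab.symm
      · rfl
    letI := Algebra.adjoinCommRingOfComm ℚ h1
    exact congrArg Subtype.val (mul_comm (⟨x, hx⟩ : Algebra.adjoin ℚ {a, b}) ⟨y, hy⟩)
  have hF : IsField (Algebra.adjoin ℚ {a, b}) := by
    refine ⟨⟨0, 1, zero_ne_one⟩, fun x y => Subtype.ext (hcomm x x.2 y y.2), fun {x} hx => ?_⟩
    have h1 : Function.Injective (LinearMap.mulLeft ℚ x) := by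
      rw [injective_iff_map_eq_zero]
      intro y hy
      apply Subtype.ext
      refine hdiv x x.2 (fun h => hx (Subtype.ext h)) y ?_
      exact congrArg Subtype.val hy
    obtain ⟨y, hy⟩ := (LinearMap.injective_iff_surjective.1 h1) 1
    exact ⟨y, hy⟩
  letI : Field (Algebra.adjoin ℚ {a, b}) := hF.toField
  obtain ⟨c, hc⟩ := Field.exists_primitive_element ℚ (Algebra.adjoin ℚ {a, b})
  refine ⟨c, ?_⟩
  have h1 : Algebra.adjoin ℚ {c} = (⊤ : Subalgebra ℚ (Algebra.adjoin ℚ {a, b})) := by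
    have h2 := IntermediateField.adjoin_simple_toSubalgebra_of_isAlgebraic
      (Algebra.IsAlgebraic.isAlgebraic (R := ℚ) c)
    rw [← h2, hc, IntermediateField.top_toSubalgebra]
  have h2 := congrArg (Subalgebra.map (Algebra.adjoin ℚ {a, b}).val) h1
  rw [AlgHom.map_adjoin, Set.image_singleton, Algebra.map_top, Subalgebra.range_val] at h2
  exact h2

end Pool.Agent.N994.FH
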