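import Mathlib
import Pool.Agent.N994.FH.F
import Pool.Agent.N994.FH.E
import Pool.Agent.N438.HX.UNB

/-!
# Symmetric endomorphisms
-/

set_option linter.unusedSectionVars false

namespace Pool.Agent.N994.FH

open Matrix Module Pool.Agent.W437.HC Pool.Agent.W437.HD Pool.Agent.Y90
open Pool.Agent.R915 Pool.Agent.N994.PG Polynomial
open Pool.Agent.W548.Odd hiding cv
open Pool.Agent.N438.HX (exists_tr_ne tr_sdu)

noncomputable section

variable {g : ℕ} {Z : Matrix (Fin g) (Fin g) ℂ}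

/-- A self-dual module with an element of rank one has an alternating form. -/
theorem altF_of {U : Submodule ℂ (Fin g ⊕ Fin g → ℂ)} (hU : IrS (LZ Z) U) (hr : Rk1 Z U)
    (hs : SDu Z U) : AltF Z U := by
  obtain ⟨b, ⟨u0, hu0, v0, hv0, h0⟩, hb⟩ := hs
  by_cases ha : ∃ u ∈ U, ∃ v ∈ U, (b - b.flip) u v ≠ 0
  · refine ⟨b - b.flip, ha, fun X hX u hu v hv => ?_, fun u _ v _ => ?_⟩
    · simp only [LinearMap.sub_apply, LinearMap.flip_apply]
      have h1 := hb X hX u hu v hv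
      have h2 := hb X hX v hv u hu
      linear_combination h1 - h2
    · simp only [LinearMap.sub_apply, LinearMap.flip_apply]
      ring
  · exfalso
    push Not at ha
    have hsym : ∀ u ∈ U, ∀ v ∈ U, b u v = b v u := by
      intro u hu v hv
      have h1 := ha u hu v hv
      simp only [LinearMap.sub_apply, LinearMap.flip_apply] at h1
      exact sub_eq_zero.1 h1
    obtain ⟨D, -, N, hN, -, -, hr1⟩ := hr
    obtain ⟨⟨n, ⟨u1, hu1, hu1n⟩⟩, hn0, hn⟩ := finrank_eq_one_iff'.1 hr1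
    have hu1n' : N *ᵥ u1 = n := hu1n
    have hnU : n ∈ U := by
      rw [← hu1n']
      exact hU.2.1 N hN u1 hu1
    have hn1 : n ≠ 0 := fun h => hn0 (Subtype.ext h)
    have hc : ∀ u ∈ U, ∃ c : ℂ, N *ᵥ u = c • n := by
      intro u hu
      obtain ⟨c, hc⟩ := hn ⟨N *ᵥ u, ⟨u, hu, rfl⟩⟩
      exact ⟨c, (congrArg Subtype.val hc).symm⟩
    have hq : ∀ u ∈ U, b (N *ᵥ u) u = 0 := by
      intro u hu
      have h1 := hb N hN u hu u hu
      rw [hsym u hu _ (hU.2.1 N hN u hu)] at h1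
      linear_combination (1 / 2 : ℂ) * h1
    have hbn : ∀ v ∈ U, b n v = 0 := by
      intro v hv
      by_contra hcon
      obtain ⟨c, hcv⟩ := hc v hv
      have h1 := hq v hv
      rw [hcv, map_smul, LinearMap.smul_apply, smul_eq_mul] at h1
      have h2 : c = 0 := (mul_eq_zero.1 h1).resolve_right hcon
      rw [h2, zero_smul] at hcv
      have h3 := hq u1 hu1
      rw [hu1n'] at h3
      have h4 := hq (u1 + v) (U.add_mem hu1 hv)
      rw [mulVec_add, hcv, add_zero, hu1n', map_add, h3, zero_add] at h4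
      exact hcon h4
    let R : Submodule ℂ (Fin g ⊕ Fin g → ℂ) :=
      { carrier := {u | u ∈ U ∧ ∀ v ∈ U, b u v = 0}
        add_mem' := fun {x y} hx hy => ⟨U.add_mem hx.1 hy.1, fun v hv => by
          rw [map_add, LinearMap.add_apply, hx.2 v hv, hy.2 v hv, add_zero]⟩
        zero_mem' := ⟨U.zero_mem, fun v _ => by rw [map_zero, LinearMap.zero_apply]⟩
        smul_mem' := fun c x hx => ⟨U.smul_mem c hx.1, fun v hv => by
          rw [map_smul, LinearMap.smul_apply, hx.2 v hv, smul_zero]⟩ }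
    have hRs : Stab (LZ Z) R := by
      rintro X hX u ⟨hu, hu'⟩
      refine ⟨hU.2.1 X hX u hu, fun v hv => ?_⟩
      have h1 := hb X hX u hu v hv
      rw [hu' _ (hU.2.1 X hX v hv), add_zero] at h1
      exact h1
    rcases hU.2.2 R (fun u hu => hu.1) hRs with h1 | h1
    · apply hn1
      have h2 : n ∈ R := ⟨hnU, hbn⟩
      rwa [h1, Submodule.mem_bot] at h2
    · have h2 : u0 ∈ R := by rw [h1]; exact hu0
      exact h0 (h2.2 v0 hv0)

/-- Symmetric endomorphisms. -/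
structure Sy (Z : Matrix (Fin g) (Fin g) ℂ) (R : Matrix (Fin g ⊕ Fin g) (Fin g ⊕ Fin g) ℚ) :
    Prop where
  comm : qm R * DZ Z = DZ Z * qm R
  sym : Rᵀ * Om g ℚ = Om g ℚ * R

theorem qm_one' : qm (1 : Matrix (Fin g ⊕ Fin g) (Fin g ⊕ Fin g) ℚ) = 1 := by
  unfold qm
  rw [Matrix.map_one _ Rat.cast_zero Rat.cast_one]

theorem qm_smul' (c : ℚ) (R : Matrix (Fin g ⊕ Fin g) (Fin g ⊕ Fin g) ℚ) :
    qm (c • R) = (c : ℂ) • qm R := by
  ext i j
  simp [qm]

theorem qm_add' (R S : Matrix (Fin g ⊕ Fin g) (Fin g ⊕ Fin g) ℚ) : qm (R + S) = qm R + qm S := by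
  ext i j
  simp [qm]

theorem Sy.one : Sy Z (1 : Matrix (Fin g ⊕ Fin g) (Fin g ⊕ Fin g) ℚ) :=
  ⟨by rw [qm_one', one_mul, mul_one], by rw [transpose_one, one_mul, mul_one]⟩

theorem Sy.smul {R : Matrix (Fin g ⊕ Fin g) (Fin g ⊕ Fin g) ℚ} (h : Sy Z R) (c : ℚ) :
    Sy Z (c • R) :=
  ⟨by rw [qm_smul', Matrix.smul_mul, Matrix.mul_smul, h.comm],
    by rw [transpose_smul, Matrix.smul_mul, Matrix.mul_smul, h.sym]⟩

theorem Sy.add {R S : Matrix (Fin g ⊕ Fin g) (Fin g ⊕ Fin g) ℚ} (h : Sy Z R) (h' : Sy Z S) :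
    Sy Z (R + S) :=
  ⟨by rw [qm_add', add_mul, mul_add, h.comm, h'.comm],
    by rw [transpose_add, add_mul, mul_add, h.sym, h'.sym]⟩

theorem Sy.mul {R S : Matrix (Fin g ⊕ Fin g) (Fin g ⊕ Fin g) ℚ} (h : Sy Z R) (h' : Sy Z S)
    (hc : R * S = S * R) : Sy Z (R * S) := by
  refine ⟨by rw [qm_mul, mul_assoc, h'.comm, ← mul_assoc, h.comm, mul_assoc], ?_⟩
  rw [transpose_mul, mul_assoc, h.sym, ← mul_assoc, h'.sym, mul_assoc, ← hc]

theorem Sy.adj {a b : Matrix (Fin g ⊕ Fin g) (Fin g ⊕ Fin g) ℚ} (ha : Sy Z a) (hb : Sy Z b)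
    (hab : a * b = b * a) : ∀ x ∈ Algebra.adjoin ℚ {a, b}, Sy Z x := by
  have hcomm : ∀ x ∈ Algebra.adjoin ℚ {a, b}, ∀ y ∈ Algebra.adjoin ℚ {a, b}, x * y = y * x := by
    intro x hx y hy
    have h1 : ∀ u ∈ ({a, b} : Set (Matrix (Fin g ⊕ Fin g) (Fin g ⊕ Fin g) ℚ)),
        ∀ v ∈ ({a, b} : Set (Matrix (Fin g ⊕ Fin g) (Fin g ⊕ Fin g) ℚ)), u * v = v * u := by
      rintro u (rfl | rfl) v (rfl | rfl)
      · rfl
      · exact hab
      · exact hab.symm
      · rfl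
    let _ := Algebra.adjoinCommRingOfComm ℚ h1
    exact congrArg Subtype.val (mul_comm (⟨x, hx⟩ : Algebra.adjoin ℚ {a, b}) ⟨y, hy⟩)
  intro x hx
  induction hx using Algebra.adjoin_induction with
  | mem x hx =>
    rcases hx with rfl | rfl
    · exact ha
    · exact hb
  | algebraMap c =>
    rw [Algebra.algebraMap_eq_smul_one]
    exact Sy.one.smul c
  | add x y _ _ hx hy => exact hx.add hy
  | mul x y hx' hy' hx hy => exact hx.mul hy (hcomm x hx' y hy')

/-- The endomorphisms of a simple abelian variety are invertible. -/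
theorem endo_div (h : PM Z) (hs : IsSimpleAV Z) {R : Matrix (Fin g ⊕ Fin g) (Fin g ⊕ Fin g) ℚ}
    (hR : qm R * DZ Z = DZ Z * qm R) (h0 : R ≠ 0) : IsUnit (qm R) := by
  rcases hdivZ h.isPer (Set.mem_singleton Z) hs R (by
    intro X hX
    rw [← img_eq] at hX
    exact (commL_of hR X hX).symm) with h1 | h1
  · exact absurd h1 h0
  · exact h1

/-- A symmetric endomorphism which generates its symmetric commutant. -/
theorem exists_max (h : PM Z) (hs : IsSimpleAV Z) (hg : 0 < g) :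
    ∃ a, Sy Z a ∧ ∀ b, Sy Z b → a * b = b * a → b ∈ Algebra.adjoin ℚ {a} := by
  classical
  have : Nonempty (Fin g ⊕ Fin g) := ⟨Sum.inl ⟨0, hg⟩⟩
  let P : ℕ → Prop := fun n => ∃ a, Sy Z a ∧ finrank ℚ (Algebra.adjoin ℚ {a}) = n
  let B := finrank ℚ (Matrix (Fin g ⊕ Fin g) (Fin g ⊕ Fin g) ℚ)
  have hle : ∀ S : Subalgebra ℚ (Matrix (Fin g ⊕ Fin g) (Fin g ⊕ Fin g) ℚ), finrank ℚ S ≤ B :=
    fun S => Submodule.finrank_le (Subalgebra.toSubmodule S)
  have hP : P (Nat.findGreatest P B) :=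
    Nat.findGreatest_spec (hle (Algebra.adjoin ℚ {1})) ⟨1, Sy.one, rfl⟩
  obtain ⟨a, ha, hfa⟩ := hP
  refine ⟨a, ha, fun b hb hab => ?_⟩
  obtain ⟨c, hc⟩ := exists_gen hab (fun x hx hx0 y hxy => by
    have h1 := endo_div h hs (ha.adj hb hab x hx).comm hx0
    have h2 : qm x * qm y = 0 := by rw [← qm_mul, hxy, qm_zero]
    have h3 : qm y = 0 := h1.mul_right_eq_zero.1 h2
    ext i j
    have h4 := congrFun (congrFun h3 i) j
    exact Rat.cast_injective (h4.trans Rat.cast_zero.symm))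
  have hcS : Sy Z c := ha.adj hb hab c (by
    rw [← hc]
    exact Algebra.subset_adjoin rfl)
  have h1 : finrank ℚ (Algebra.adjoin ℚ {a, b}) ≤ finrank ℚ (Algebra.adjoin ℚ {a}) := by
    rw [← hc, hfa]
    exact Nat.le_findGreatest (hle _) ⟨c, hcS, rfl⟩
  have h2 : Algebra.adjoin ℚ {a} ≤ Algebra.adjoin ℚ {a, b} :=
    Algebra.adjoin_mono (Set.singleton_subset_iff.2 (Set.mem_insert _ _))
  have h3 : Subalgebra.toSubmodule (Algebra.adjoin ℚ {a}) =
      Subalgebra.toSubmodule (Algebra.adjoin ℚ {a, b}) :=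
    Submodule.eq_of_le_of_finrank_le h2 h1
  have h4 : b ∈ Subalgebra.toSubmodule (Algebra.adjoin ℚ {a, b}) :=
    Algebra.subset_adjoin (Set.mem_insert_of_mem _ rfl)
  rw [← h3] at h4
  exact h4

end

end Pool.Agent.N994.FH
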