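import Mathlib
import Pool.Agent.N994.FH.G

/-!
# A totally real maximal subfield of the endomorphism algebra
-/

set_option linter.unusedSectionVars false

namespace Pool.Agent.N994.FH

open Matrix Module Pool.Agent.W437.HC Pool.Agent.W437.HD Pool.Agent.Y90
open Pool.Agent.R915 Pool.Agent.N994.PG Polynomial
open Pool.Agent.W548.Odd hiding cv
open Pool.Agent.N438.HX (exists_tr_ne tr_sdu)
open scoped ComplexOrder

noncomputable section

variable {g : ℕ} {Z : Matrix (Fin g) (Fin g) ℂ}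

/-- The adjoint. -/
def ad (R : Matrix (Fin g ⊕ Fin g) (Fin g ⊕ Fin g) ℚ) :
    Matrix (Fin g ⊕ Fin g) (Fin g ⊕ Fin g) ℚ := -(Om g ℚ * Rᵀ * Om g ℚ)

theorem Om_ad (R : Matrix (Fin g ⊕ Fin g) (Fin g ⊕ Fin g) ℚ) :
    Om g ℚ * ad R = Rᵀ * Om g ℚ := by
  unfold ad
  rw [Matrix.mul_neg, ← mul_assoc, ← mul_assoc, Om_sq, neg_one_mul, neg_mul, neg_neg]

theorem ad_Om (R : Matrix (Fin g ⊕ Fin g) (Fin g ⊕ Fin g) ℚ) :
    (ad R)ᵀ * Om g ℚ = Om g ℚ * R := by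
  unfold ad
  simp only [transpose_neg, transpose_mul, transpose_transpose, Om_transpose, neg_mul, mul_neg,
    neg_neg, mul_assoc, Om_sq, mul_one]

theorem Om_cancel {K : Type} [CommRing K] {A B : Matrix (Fin g ⊕ Fin g) (Fin g ⊕ Fin g) K}
    (h : Om g K * A = Om g K * B) : A = B := by
  have h1 := congrArg (fun X => -(Om g K) * X) h
  beta_reduce at h1
  rwa [← mul_assoc, ← mul_assoc, neg_mul, Om_sq, neg_neg, one_mul, one_mul] at h1

theorem ad_comm (h : PM Z) {R : Matrix (Fin g ⊕ Fin g) (Fin g ⊕ Fin g) ℚ}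
    (hR : qm R * DZ Z = DZ Z * qm R) : qm (ad R) * DZ Z = DZ Z * qm (ad R) := by
  have h1 := h.sp DZ_mem
  have h2 : Om g ℂ * qm (ad R) = (qm R)ᵀ * Om g ℂ := by
    have h3 := congrArg qm (Om_ad R)
    rw [qm_mul, qm_mul, ← Om_qm] at h3
    exact h3
  apply Om_cancel
  have h3 : Om g ℂ * DZ Z = -((DZ Z)ᵀ * Om g ℂ) := by
    rw [← add_eq_zero_iff_eq_neg, add_comm]
    exact h1
  rw [← mul_assoc, h2, mul_assoc, h3, mul_neg, ← mul_assoc, ← transpose_mul, ← hR, transpose_mul,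
    ← mul_assoc, h3, neg_mul, mul_assoc, mul_assoc, h2]

theorem ad_mul_comm {a R : Matrix (Fin g ⊕ Fin g) (Fin g ⊕ Fin g) ℚ} (ha : Sy Z a)
    (hR : a * R = R * a) : a * ad R = ad R * a := by
  apply Om_cancel
  have e1 : Om g ℚ * (a * ad R) = (R * a)ᵀ * Om g ℚ := by
    rw [← mul_assoc, ← ha.sym, mul_assoc, Om_ad, ← mul_assoc, ← transpose_mul]
  have e2 : Om g ℚ * (ad R * a) = (a * R)ᵀ * Om g ℚ := by
    rw [← mul_assoc, Om_ad, mul_assoc, ← ha.sym, ← mul_assoc, ← transpose_mul]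
  rw [e1, e2, hR]

theorem om_ad (R : Matrix (Fin g ⊕ Fin g) (Fin g ⊕ Fin g) ℚ) (u v : Fin g ⊕ Fin g → ℂ) :
    om g (qm R *ᵥ u) v = om g u (qm (ad R) *ᵥ v) := by
  have h2 : Om g ℂ * qm (ad R) = (qm R)ᵀ * Om g ℂ := by
    have h3 := congrArg qm (Om_ad R)
    rw [qm_mul, qm_mul, ← Om_qm] at h3
    exact h3
  rw [om_apply, om_apply, mulVec_mulVec, h2, ← mulVec_mulVec, ← vecMul_transpose,
    dotProduct_mulVec u]

theorem Sy.om_symm {a : Matrix (Fin g ⊕ Fin g) (Fin g ⊕ Fin g) ℚ} (ha : Sy Z a)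
    (u v : Fin g ⊕ Fin g → ℂ) : om g (qm a *ᵥ u) v = om g u (qm a *ᵥ v) := by
  have h1 : ad a = a := Om_cancel (by rw [Om_ad, ha.sym])
  rw [om_ad, h1]

theorem qm_cnj (a : Matrix (Fin g ⊕ Fin g) (Fin g ⊕ Fin g) ℚ) (v : Fin g ⊕ Fin g → ℂ) :
    cnj (qm a *ᵥ v) = qm a *ᵥ cnj v := by
  have h1 := map_mulVec_aut cc (qm a) v
  have h2 : (qm a).map cc = qm a := by
    ext i j
    exact map_ratCast cc _
  rw [h2] at h1
  exact h1

theorem Sy.real (h : PM Z) {a : Matrix (Fin g ⊕ Fin g) (Fin g ⊕ Fin g) ℚ} (ha : Sy Z a) {θ : ℂ}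
    {v : Fin g ⊕ Fin g → ℂ} (hv : v ≠ 0) (hva : qm a *ᵥ v = θ • v) : cc θ = θ := by
  have h1 := ha.om_symm (cnj v) (DZ Z *ᵥ v)
  rw [← qm_cnj, hva, cnj_smul, mulVec_mulVec, ha.comm, ← mulVec_mulVec, hva, mulVec_smul,
    map_smul, map_smul, LinearMap.smul_apply, smul_eq_mul, smul_eq_mul] at h1
  have h2 : om g (cnj v) (DZ Z *ᵥ v) ≠ 0 := by
    intro h0
    have h3 := h.herm_pos hv
    rw [h0, mul_zero] at h3
    exact lt_irrefl _ h3
  exact mul_right_cancel₀ h2 h1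

/-- Roots of the minimal polynomial are eigenvalues. -/
theorem root_eig (h : PM Z) (hs : IsSimpleAV Z) (hg : 0 < g)
    {a : Matrix (Fin g ⊕ Fin g) (Fin g ⊕ Fin g) ℚ} (ha : qm a * DZ Z = DZ Z * qm a) {z : ℂ}
    (hz : aeval z (minpoly ℚ a) = 0) : ∃ v ≠ 0, qm a *ᵥ v = z • v := by
  have : Nonempty (Fin g ⊕ Fin g) := ⟨Sum.inl ⟨0, hg⟩⟩
  obtain ⟨θ, hθ⟩ := Module.End.exists_eigenvalue (mulVecLin (qm a))
  obtain ⟨v, hv⟩ := hθ.exists_hasEigenvector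
  have hv1 : qm a *ᵥ v = θ • v := hv.apply_eq_smul
  have hne : VE a θ ≠ ⊥ := fun h1 => hv.2 (by
    have h2 : v ∈ VE a θ := mem_VE.2 hv1
    rwa [h1, Submodule.mem_bot] at h2)
  have hroot : aeval θ (minpoly ℚ a) = 0 := by
    have h1 := aeval_eig hv1 (minpoly ℚ a)
    rw [minpoly.aeval, qm_zero, zero_mulVec] at h1
    exact (smul_eq_zero.1 h1.symm).resolve_right hv.2
  have hint : IsIntegral ℚ θ :=
    ⟨minpoly ℚ a, minpoly.monic (Algebra.IsIntegral.isIntegral a), hroot⟩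
  have hspan' : ⨆ σ : ℂ ≃+* ℂ, VE a (σ θ) = ⊤ := by
    rw [← conj_span h hs (VE_stab ha θ) hne]
    exact iSup_congr fun σ => (VE_cj a θ σ).symm
  have h0 : ∀ σ : ℂ ≃+* ℂ, aeval (σ θ) (minpoly ℚ θ) = 0 := by
    intro σ
    rw [aeval_aut, minpoly.aeval, map_zero]
  have h1 : (⊤ : Submodule ℂ (Fin g ⊕ Fin g → ℂ)) ≤
      LinearMap.ker (mulVecLin (qm (aeval a (minpoly ℚ θ)))) := by
    rw [← hspan', iSup_le_iff]
    intro σ v hv
    rw [LinearMap.mem_ker, mulVecLin_apply, aeval_eig (mem_VE.1 hv), h0, zero_smul]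
  have h2 : aeval a (minpoly ℚ θ) = 0 := by
    have h3 : qm (aeval a (minpoly ℚ θ)) = 0 := by
      apply Matrix.toLin'.injective
      refine LinearMap.ext fun v => ?_
      have h4 : v ∈ LinearMap.ker (mulVecLin (qm (aeval a (minpoly ℚ θ)))) := h1 trivial
      rw [map_zero, LinearMap.zero_apply]
      exact h4
    ext i j
    have h4 := congrFun (congrFun h3 i) j
    exact Rat.cast_injective (h4.trans Rat.cast_zero.symm)
  obtain ⟨q, hq⟩ := minpoly.dvd ℚ a h2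
  have h3 : aeval z (minpoly ℚ θ) = 0 := by rw [hq, map_mul, hz, zero_mul]
  obtain ⟨σ, hσ⟩ := exists_conj_aut hint.isAlgebraic h3
  refine ⟨fun i => σ (v i), fun h4 => hv.2 ?_, ?_⟩
  · funext i
    have h5 := congrFun h4 i
    exact (map_eq_zero_iff σ σ.injective).1 h5
  · have h4 : (fun i => σ (v i)) ∈ VE a (σ θ) := by
      rw [← VE_cj]
      exact cj_mem_cjS (mem_VE.2 hv1)
    rw [hσ] at h4
    exact mem_VE.1 h4

end

end Pool.Agent.N994.FH
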