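import Mathlib
import Pool.Agent.N994.FH.H

/-!
# The endomorphism algebra is of Albert type I or II
-/

set_option linter.unusedSectionVars false

namespace Pool.Agent.N994.FH

open Matrix Module Pool.Agent.W437.HC Pool.Agent.W437.HD Pool.Agent.Y90
open Pool.Agent.R915 Pool.Agent.N994.PG Polynomial
open Pool.Agent.W548.Odd hiding cv
open Pool.Agent.N438.HX (exists_tr_ne tr_sdu)

noncomputable section

variable {g : ℕ} {Z : Matrix (Fin g) (Fin g) ℂ}

/-- Polynomials in an endomorphism act on the eigenspaces by scalars. -/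
theorem adj_scalar {a x : Matrix (Fin g ⊕ Fin g) (Fin g ⊕ Fin g) ℚ}
    (hx : x ∈ Algebra.adjoin ℚ {a}) (θ : ℂ) : ∃ c : ℂ, ∀ v ∈ VE a θ, qm x *ᵥ v = c • v := by
  rw [Algebra.adjoin_singleton_eq_range_aeval] at hx
  obtain ⟨p, hp⟩ := hx
  change aeval a p = x at hp
  exact ⟨aeval θ p, fun v hv => by rw [← hp, aeval_eig (mem_VE.1 hv)]⟩

theorem ad_sy (h : PM Z) {R : Matrix (Fin g ⊕ Fin g) (Fin g ⊕ Fin g) ℚ}
    (hR : qm R * DZ Z = DZ Z * qm R) : Sy Z (R + ad R) :=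
  ⟨by rw [qm_add', add_mul, mul_add, hR, ad_comm h hR],
    by rw [transpose_add, add_mul, mul_add, ad_Om, Om_ad, add_comm]⟩

/-- There are no skew endomorphisms which commute with the symmetric endomorphism. -/
theorem no_skew (h : PM Z) (hs : IsSimpleAV Z) (hg : 0 < g)
    (hloc : ∀ U, IrS (LZ Z) U → Rk1 Z U ∧ SDu Z U)
    {a : Matrix (Fin g ⊕ Fin g) (Fin g ⊕ Fin g) ℚ} (ha : Sy Z a)
    (hmax : ∀ b, Sy Z b → a * b = b * a → b ∈ Algebra.adjoin ℚ {a})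
    {b : Matrix (Fin g ⊕ Fin g) (Fin g ⊕ Fin g) ℚ} (hb : qm b * DZ Z = DZ Z * qm b)
    (hab : a * b = b * a) (hsk : ad b = -b) : b = 0 := by
  by_contra hb0
  have : Nonempty (Fin g ⊕ Fin g) := ⟨Sum.inl ⟨0, hg⟩⟩
  have hbu := endo_div h hs hb hb0
  have hbt : bᵀ * Om g ℚ = -(Om g ℚ * b) := by rw [← Om_ad, hsk, mul_neg]
  have hbb : Sy Z (b * b) := by
    refine ⟨by rw [qm_mul, mul_assoc, hb, ← mul_assoc, hb, mul_assoc], ?_⟩
    rw [transpose_mul, mul_assoc, hbt, mul_neg, ← mul_assoc, hbt, neg_mul, neg_neg, mul_assoc]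
  have hbba : b * b ∈ Algebra.adjoin ℚ {a} := hmax _ hbb (by
    rw [← mul_assoc, hab, mul_assoc, hab, mul_assoc])
  -- an eigenspace
  obtain ⟨θ, hθ⟩ := Module.End.exists_eigenvalue (mulVecLin (qm a))
  obtain ⟨v0, hv0⟩ := hθ.exists_hasEigenvector
  have hv1 : v0 ∈ VE a θ := mem_VE.2 hv0.apply_eq_smul
  have hv00 : v0 ≠ 0 := hv0.2
  have hne : VE a θ ≠ ⊥ := fun h1 => hv00 (by rwa [h1, Submodule.mem_bot] at hv1)
  obtain ⟨μ, hμ⟩ := adj_scalar hbba θ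
  have hbinj : ∀ v, qm b *ᵥ v = 0 → v = 0 := by
    intro v hv
    exact (Matrix.mulVec_injective_iff_isUnit.2 hbu) (by rw [hv, mulVec_zero])
  have hμ0 : μ ≠ 0 := by
    rintro rfl
    have h1 := hμ v0 hv1
    rw [zero_smul, qm_mul, ← mulVec_mulVec] at h1
    exact hv00 (hbinj _ (hbinj _ h1))
  obtain ⟨s, hs2⟩ : ∃ s : ℂ, s * s = μ := by
    obtain ⟨s, hs2⟩ := IsAlgClosed.exists_pow_nat_eq μ (n := 2) (by norm_num)
    exact ⟨s, by rw [← sq, hs2]⟩
  have hs0 : s ≠ 0 := by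
    rintro rfl
    exact hμ0 (by rw [← hs2, mul_zero])
  have hbV : ∀ v ∈ VE a θ, qm b *ᵥ v ∈ VE a θ := by
    intro v hv
    rw [mem_VE, mulVec_mulVec, ← qm_mul, hab, qm_mul, ← mulVec_mulVec, mem_VE.1 hv, mulVec_smul]
  obtain ⟨t, ht0, hW⟩ : ∃ t : ℂ, t ≠ 0 ∧ VE a θ ⊓ VE b t ≠ ⊥ := by
    by_cases hw : qm b *ᵥ v0 + s • v0 = 0
    · refine ⟨-s, neg_ne_zero.2 hs0, fun h1 => hv00 ?_⟩
      have h2 : v0 ∈ VE a θ ⊓ VE b (-s) :=
        ⟨hv1, mem_VE.2 (by rw [neg_smul]; exact eq_neg_of_add_eq_zero_left hw)⟩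
      rwa [h1, Submodule.mem_bot] at h2
    · refine ⟨s, hs0, fun h1 => hw ?_⟩
      have h2 : qm b *ᵥ v0 + s • v0 ∈ VE a θ ⊓ VE b s := by
        refine ⟨(VE a θ).add_mem (hbV _ hv1) ((VE a θ).smul_mem _ hv1), mem_VE.2 ?_⟩
        have h3 := hμ v0 hv1
        rw [qm_mul, ← mulVec_mulVec] at h3
        rw [mulVec_add, mulVec_smul, h3, ← hs2]
        module
      rwa [h1, Submodule.mem_bot] at h2
  obtain ⟨U, hUW, hU⟩ := exists_irS _ _ rfl hW ((VE_stab ha.comm θ).inf (VE_stab hb t))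
  have hUa : U ≤ VE a θ := hUW.trans inf_le_left
  have hom : ∀ u ∈ U, ∀ v ∈ U, om g u v = 0 := by
    intro u hu v hv
    have h1 := om_ad b u v
    have hq : qm (-b) = -qm b := by
      ext i j
      simp [qm]
    rw [hsk, hq, neg_mulVec, mem_VE.1 (hUW hu).2, mem_VE.1 (hUW hv).2, map_neg, map_smul, map_smul,
      LinearMap.smul_apply, smul_eq_mul] at h1
    have h2 : (2 * t) * om g u v = 0 := by linear_combination h1
    exact (mul_eq_zero.1 h2).resolve_left (mul_ne_zero two_ne_zero ht0)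
  obtain ⟨β, ⟨u0, hu0, w0, hw0, h0⟩, hβ, halt⟩ := altF_of hU (hloc U hU).1 (hloc U hU).2
  obtain ⟨P, hP1, hP2, hP3, hP4⟩ := exists_spec h hs ha.comm hne
  obtain ⟨π, hπ1, hπ2, hπ3⟩ := h.cred U hU.2.1
  let ρ : (Fin g ⊕ Fin g → ℂ) →ₗ[ℂ] (Fin g ⊕ Fin g → ℂ) := π.comp (mulVecLin P)
  have hρ : ∀ v, ρ v = π (P *ᵥ v) := fun v => rfl
  have hρU : ∀ v, ρ v ∈ U := fun v => hπ2 _
  have hρ1 : ∀ v ∈ U, ρ v = v := fun v hv => by rw [hρ, hP2 v (hUa hv), hπ3 v hv]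
  have hρX : ∀ X ∈ LZ Z, ∀ v, ρ (X *ᵥ v) = X *ᵥ ρ v := by
    intro X hX v
    rw [hρ, hρ, mulVec_mulVec, ← hP3 X hX, ← mulVec_mulVec, hπ1 X hX]
  have hρa : ∀ v, ρ (qm a *ᵥ v) = θ • ρ v := by
    intro v
    rw [hρ, hρ, mulVec_mulVec, ← hP4, ← mulVec_mulVec, mem_VE.1 (hP1 v), map_smul]
  -- the matrix of the form
  let M : Matrix (Fin g ⊕ Fin g) (Fin g ⊕ Fin g) ℂ :=
    Matrix.of fun i j => β (ρ (Pi.single i 1)) (ρ (Pi.single j 1))
  have hM : ∀ x y, x ⬝ᵥ (M *ᵥ y) = β (ρ x) (ρ y) := by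
    intro x y
    have hx : ∀ z : Fin g ⊕ Fin g → ℂ, z = ∑ i, z i • (Pi.single i 1 : Fin g ⊕ Fin g → ℂ) :=
      fun z => by
        conv_lhs => rw [pi_eq_sum_univ' z]
    conv_rhs => rw [hx x, hx y]
    simp only [map_sum, map_smul, LinearMap.sum_apply, LinearMap.smul_apply, smul_eq_mul, dotProduct,
      mulVec, M, Matrix.of_apply, Finset.mul_sum]
    refine Finset.sum_comm.trans (Finset.sum_congr rfl fun j _ => Finset.sum_congr rfl fun i _ => ?_)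
    ring
  let F : Matrix (Fin g ⊕ Fin g) (Fin g ⊕ Fin g) ℂ := -(Om g ℂ * M)
  have hF : ∀ x y, om g x (F *ᵥ y) = β (ρ x) (ρ y) := by
    intro x y
    rw [om_apply, mulVec_mulVec, ← hM]
    congr 2
    change Om g ℂ * -(Om g ℂ * M) = M
    rw [mul_neg, ← mul_assoc, Om_sq, neg_one_mul, neg_neg]
  have ext : ∀ A C : Matrix (Fin g ⊕ Fin g) (Fin g ⊕ Fin g) ℂ,
      (∀ x y, om g x (A *ᵥ y) = om g x (C *ᵥ y)) → A = C := by
    intro A C hAC
    apply Matrix.toLin'.injective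
    refine LinearMap.ext fun y => ?_
    rw [Matrix.toLin'_apply, Matrix.toLin'_apply, ← sub_eq_zero]
    apply om_nd
    intro x
    rw [om_anti, map_sub, hAC x y, sub_self, neg_zero]
  have hFX : ∀ X ∈ LZ Z, F * X = X * F := by
    intro X hX
    refine ext _ _ fun x y => ?_
    rw [← mulVec_mulVec, ← mulVec_mulVec, hF, hρX X hX]
    have h1 := hβ X hX _ (hρU x) _ (hρU y)
    have h2 := h.om_sp hX x (F *ᵥ y)
    rw [hF, hρX X hX] at h2
    linear_combination h1 - h2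
  have hFa : F * qm a = qm a * F := by
    refine ext _ _ fun x y => ?_
    rw [← mulVec_mulVec, ← mulVec_mulVec, hF, ← ha.om_symm, hF, hρa, hρa, map_smul, map_smul,
      LinearMap.smul_apply]
  have hFs : ∀ x y, om g (F *ᵥ x) y = om g x (F *ᵥ y) := by
    intro x y
    rw [om_anti, hF, hF, halt _ (hρU y) _ (hρU x), neg_neg]
  obtain ⟨m, c, C, hC1, hC2, hC3⟩ := descent_gen hFX
  have hz : ∀ j, ∃ z : ℂ, ∀ v ∈ VE a θ, qm (C j + ad (C j)) *ᵥ v = z • v := by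
    intro j
    have h1 : a * C j = C j * a := (hC2 a hFa j).symm
    refine adj_scalar (hmax _ (ad_sy h (hC1 j)) ?_) θ
    rw [mul_add, add_mul, h1, ad_mul_comm ha h1]
  choose z hz using hz
  have h1 : ∀ u ∈ U, ∀ v ∈ U, om g u (F *ᵥ v) = 0 := by
    intro u hu v hv
    have h2 : om g u (F *ᵥ v) + om g (F *ᵥ u) v = 0 := by
      rw [hC3, Matrix.sum_mulVec, Matrix.sum_mulVec, map_sum, map_sum, LinearMap.sum_apply,
        ← Finset.sum_add_distrib]
      refine Finset.sum_eq_zero fun j _ => ?_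
      rw [smul_mulVec, smul_mulVec, map_smul, map_smul, LinearMap.smul_apply, om_ad, ← smul_add,
        ← map_add, ← add_mulVec, ← qm_add', hz j v (hUa hv), map_smul, hom u hu v hv, smul_zero,
        smul_zero]
    rw [hFs] at h2
    linear_combination (1 / 2 : ℂ) * h2
  have h2 := h1 u0 hu0 w0 hw0
  rw [hF, hρ1 u0 hu0, hρ1 w0 hw0] at h2
  exact h0 h2

/-- **The endomorphism algebra is of Albert type I or II.** -/
theorem exists_real (h : PM Z) (hs : IsSimpleAV Z) (hg : 0 < g)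
    (hloc : ∀ U, IrS (LZ Z) U → Rk1 Z U ∧ SDu Z U) :
    ∃ a : Module.End ℚ (Fin g ⊕ Fin g → ℚ), RealMax (AVZ h) a := by
  obtain ⟨a, ha, hmax⟩ := exists_max h hs hg
  let e : Matrix (Fin g ⊕ Fin g) (Fin g ⊕ Fin g) ℚ ≃ₐ[ℚ] Module.End ℚ (Fin g ⊕ Fin g → ℚ) :=
    Matrix.toLinAlgEquiv'
  have he : ∀ R, e R = Matrix.toLin' R := fun R => rfl
  refine ⟨e a, (hom_iff h a).2 ha.comm, fun z hz => ?_, fun b hb hba => ?_⟩
  · rw [show minpoly ℚ (e a) = minpoly ℚ a from minpoly.algEquiv_eq e a] at hz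
    obtain ⟨v, hv0, hv⟩ := root_eig h hs hg ha.comm hz
    exact Complex.conj_eq_iff_im.1 (ha.real h hv0 hv)
  · obtain ⟨B, rfl⟩ := e.surjective b
    have hB := (hom_iff h B).1 hb
    have hBa : a * B = B * a := by
      apply e.injective
      rw [map_mul, map_mul, hba]
    have hadB := ad_mul_comm ha hBa
    have h1 : B - ad B = 0 := by
      refine no_skew h hs hg hloc ha hmax ?_ ?_ ?_
      · have h2 : qm (B - ad B) = qm B - qm (ad B) := by
          ext i j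
          simp [qm]
        rw [h2, sub_mul, mul_sub, hB, ad_comm h hB]
      · rw [mul_sub, sub_mul, hBa, hadB]
      · apply Om_cancel
        rw [Om_ad, transpose_sub, sub_mul, ad_Om, ← Om_ad, neg_sub, mul_sub]
    have h2 : B = (1 / 2 : ℚ) • (B + ad B) := by
      rw [← sub_eq_zero.1 h1]
      module
    have h3 : B ∈ Algebra.adjoin ℚ {a} := by
      rw [h2]
      refine Subalgebra.smul_mem _ (hmax _ (ad_sy h hB) ?_) _
      rw [mul_add, add_mul, hBa, hadB]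
    have h4 : e.toAlgHom B ∈ (Algebra.adjoin ℚ {a}).map e.toAlgHom :=
      Subalgebra.mem_map.2 ⟨_, h3, rfl⟩
    rw [AlgHom.map_adjoin, Set.image_singleton] at h4
    exact h4

end

end Pool.Agent.N994.FH
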