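import Mathlib
import Pool.Agent.N994.FH.I

/-!
# Isogenies preserve the conditions
-/

set_option linter.unusedSectionVars false

namespace Pool.Agent.N994.FH

open Matrix Module Pool.Agent.W437.HC Pool.Agent.W437.HD Pool.Agent.Y90
open Pool.Agent.R915 Pool.Agent.N994.PG Polynomial
open Pool.Agent.W548.Odd hiding cv
open Pool.Agent.N438.HX (exists_tr_ne tr_sdu)

noncomputable section

/-- The isomorphism of the tangent spaces. -/
theorem exists_tan {X Y : AV} (e : X.H ≃ₗ[ℚ] Y.H) (he : IsHom X Y e.toLinearMap) :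
    ∃ E : X.T ≃ₗ[ℂ] Y.T, (∀ v, E (X.per v) = Y.per (e v)) ∧
      ∀ w, E.symm (Y.per w) = X.per (e.symm w) := by
  obtain ⟨Φ, hΦ⟩ := he
  have h5 : Function.Surjective Φ := tan_surj hΦ e.surjective
  have h6 : finrank ℂ X.T = finrank ℂ Y.T := by
    have h3 := e.finrank_eq
    rw [X.rank, Y.rank] at h3
    omega
  have h7 : Function.Injective Φ := (LinearMap.injective_iff_surjective_of_finrank_eq_finrank h6).2 h5
  let E : X.T ≃ₗ[ℂ] Y.T := LinearEquiv.ofBijective Φ ⟨h7, h5⟩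
  have hE : ∀ v, E (X.per v) = Y.per (e v) := fun v => hΦ v
  exact ⟨E, hE, fun w => by rw [LinearEquiv.symm_apply_eq, hE, e.apply_symm_apply]⟩

variable {X Y : AV} (e : X.H ≃ₗ[ℚ] Y.H) (he : IsHom X Y e.toLinearMap)

/-- Conjugation with the isogeny. -/
def cje (f : Y.H →ₗ[ℚ] Y.H) : X.H →ₗ[ℚ] X.H := e.symm.toLinearMap.comp (f.comp e.toLinearMap)

theorem cje_apply (f : Y.H →ₗ[ℚ] Y.H) (v : X.H) : cje e f v = e.symm (f (e v)) := rfl

include he

theorem disc_iso {d : ℚ} {f : Y.H →ₗ[ℚ] Y.H} (h : HasTrivialDisc Y d f) :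
    HasTrivialDisc X d (cje e f) := by
  obtain ⟨s, E, v, x, y, hs, ⟨Ψ, h1, h2, h3, h4⟩, h5, h6, h7⟩ := h
  obtain ⟨T, hT, -⟩ := exists_tan e he
  refine ⟨s, fun a b => E (e a) (e b), fun i => e.symm (v i), x, y, hs,
    ⟨fun u u' => Ψ (T u) (T u'), fun u' => ?_, fun u u' => h2 _ _, fun u hu => h3 _ ?_,
      fun a b => ?_⟩, fun a b => ?_, h6, ?_⟩
  · refine ⟨fun a b => ?_, fun c a => ?_⟩
    · change Ψ (T (a + b)) (T u') = _
      rw [map_add]
      exact (h1 _).map_add _ _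
    · change Ψ (T (c • a)) (T u') = _
      rw [map_smul]
      exact (h1 _).map_smul _ _
  · exact fun h0 => hu ((LinearEquiv.map_eq_zero_iff T).1 h0)
  · change (Ψ (T (X.per a)) (T (X.per b))).im = _
    rw [hT, hT]
    exact h4 _ _
  · change E (e (e.symm (f (e a)))) (e b) = -E (e a) (e (e.symm (f (e b))))
    rw [e.apply_symm_apply, e.apply_symm_apply]
    exact h5 _ _
  · rw [← h7]
    congr 1
    ext i j
    simp only [Matrix.of_apply, cje_apply, e.apply_symm_apply]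

theorem endQuad_iso {d : ℚ} {f : Y.H →ₗ[ℚ] Y.H} (h : EndQuad Y d f) :
    EndQuad X d (cje e f) := by
  have hes := hom_symm e he
  refine ⟨h.pos, IsHom.comp' hes (IsHom.comp' h.hom he), fun w => ?_, fun b hb => ?_⟩
  · rw [cje_apply, cje_apply, e.apply_symm_apply, h.sq, map_neg, map_smul, e.symm_apply_apply]
  · obtain ⟨x, y, hxy⟩ := h.max (cje e.symm b) (IsHom.comp' he (IsHom.comp' hb hes))
    refine ⟨x, y, LinearMap.ext fun v => ?_⟩
    have h1 := LinearMap.congr_fun hxy (e v)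
    rw [cje_apply, LinearEquiv.symm_symm, e.symm_apply_apply] at h1
    have h2 := congrArg e.symm h1
    rw [e.symm_apply_apply] at h2
    rw [h2]
    simp only [LinearMap.add_apply, LinearMap.smul_apply, LinearMap.id_apply, map_add, map_smul,
      e.symm_apply_apply, cje_apply]

theorem quadMult_iso (h : QuadMult Y) : QuadMult X := by
  obtain ⟨d, f, h1, ⟨Ψ, h2, h3⟩, h4⟩ := h
  obtain ⟨E, hE, hEs⟩ := exists_tan e he
  refine ⟨d, cje e f, endQuad_iso e he h1, ⟨E.symm.toLinearMap.comp (Ψ.comp E.toLinearMap),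
    fun v => ?_, fun s hs => ?_⟩, fun h5 => disc_iso e he (h4 (by rw [← e.finrank_eq]; exact h5))⟩
  · change E.symm (Ψ (E (X.per v))) = X.per (e.symm (f (e v)))
    rw [hE, h2, hEs]
  · have h8 : LinearMap.ker ((E.symm.toLinearMap.comp (Ψ.comp E.toLinearMap)) - s • LinearMap.id) =
        (LinearMap.ker (Ψ - s • LinearMap.id)).comap E.toLinearMap := by
      ext x
      rw [LinearMap.mem_ker, Submodule.mem_comap, LinearMap.mem_ker, LinearMap.sub_apply,
        LinearMap.sub_apply, LinearMap.comp_apply, LinearMap.comp_apply, LinearMap.smul_apply,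
        LinearMap.smul_apply, LinearMap.id_apply, LinearMap.id_apply, sub_eq_zero, sub_eq_zero]
      change E.symm (Ψ (E x)) = s • x ↔ Ψ (E x) = s • E x
      rw [LinearEquiv.symm_apply_eq, map_smul]
    rw [h8]
    have h9 : finrank ℂ ((LinearMap.ker (Ψ - s • LinearMap.id)).comap E.toLinearMap) =
        finrank ℂ (LinearMap.ker (Ψ - s • LinearMap.id)) :=
      (Submodule.comap_equiv_eq_map_symm E _).symm ▸
        LinearEquiv.finrank_map_eq E.symm (LinearMap.ker (Ψ - s • LinearMap.id))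
    rw [h9]
    exact h3 s hs

theorem small_iso (h : SmallPeriods Y) : SmallPeriods X := by
  have hes := hom_symm e he
  have hA : IsIso Y X e.symm := ⟨hes, he⟩
  obtain ⟨k, hk0, hk, hc⟩ := h
  refine ⟨k, hk0, hA.per hk, ?_⟩
  rw [e.finrank_eq]
  rcases hc with ⟨h1, h2⟩ | ⟨h1, a, ha⟩ | hc
  · exact Or.inl ⟨h1, fun h3 => h2 (HasCMult.iso e.symm hes he h3)⟩
  · exact Or.inr (Or.inl ⟨h1, _, hA.realMax ha⟩)
  · exact Or.inr (Or.inr hc)

theorem generic_iso (h : GenericPeriods Y) : GenericPeriods X := by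
  have hes := hom_symm e he
  have hA : IsIso Y X e.symm := ⟨hes, he⟩
  obtain ⟨k, hk, hc⟩ := h
  refine ⟨k, hA.per hk, ?_⟩
  rw [e.finrank_eq]
  rcases hc with ⟨h1, h2⟩ | ⟨h1, h2, h3⟩
  · refine Or.inl ⟨h1, h2.imp id ?_⟩
    rintro ⟨a, ha, h3⟩
    refine ⟨_, hA.realMax ha, ?_⟩
    rw [show minpoly ℚ (e.symm.conjAlgEquiv ℚ a) = minpoly ℚ a from
      minpoly.algEquiv_eq (e.symm.conjAlgEquiv ℚ) a]
    exact h3
  · refine Or.inr ⟨h1, h2, ?_⟩
    rcases h3 with ⟨a, ha⟩ | ⟨h3, h4⟩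
    · exact Or.inl ⟨_, hA.realMax ha⟩
    · refine Or.inr ⟨h3, fun h5 d φ hφ => ?_⟩
      have h6 := h4 h5 d _ (endQuad_iso e.symm hes hφ)
      have h7 := disc_iso e he h6
      have h8 : cje e (cje e.symm φ) = φ := by
        refine LinearMap.ext fun v => ?_
        rw [cje_apply, cje_apply, LinearEquiv.symm_symm, e.symm_apply_apply, e.symm_apply_apply]
      rwa [h8] at h7

omit he

/-- Fourfolds and sixfolds of Weil type. -/
theorem quad_of {G : ℕ} {Z : Matrix (Fin G) (Fin G) ℂ} (h : PM Z)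
    {U : Submodule ℂ (Fin G ⊕ Fin G → ℂ)} (hU : IrS (LZ Z) U)
    {φ : Matrix (Fin G ⊕ Fin G) (Fin G ⊕ Fin G) ℚ} {α : ℂ} {d : ℚ} (hq : QF Z φ d)
    (hk : KW Z U φ α d) (h46 : G = 4 ∨ G = 6) (htr : tr Z U = 0)
    (hdi : G = 6 → HasTrivialDisc (AVZ h) d (Matrix.toLin' φ)) : QuadMult (AVZ h) := by
  have hom := (hom_iff h φ).2 hq.comm
  obtain ⟨Ψ, hΨ⟩ := id hom
  refine ⟨d, Matrix.toLin' φ, ⟨hq.pos, hom, fun w => ?_, fun b hb => ?_⟩, ⟨Ψ, hΨ, fun s hs => ?_⟩,
    fun h6 => hdi ?_⟩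
  · rw [Matrix.toLin'_apply, Matrix.toLin'_apply, mulVec_mulVec, hq.sq, neg_mulVec, smul_mulVec,
      one_mulVec]
  · obtain ⟨x, y, hxy⟩ := hq.max _ ((hom_iff' h b).1 hb)
    refine ⟨x, y, ?_⟩
    have h3 := congrArg Matrix.toLin' hxy
    rw [Matrix.toLin'_toMatrix', map_add, map_smul, map_smul, Matrix.toLin'_one] at h3
    exact h3
  · have hsig := pd_sig h hq.comm (Ψ := Ψ) (fun v => hΨ v) s (U := VE φ s) fun v => mem_VE
    have h3 : finrank ℂ (LinearMap.ker (Ψ - s • LinearMap.id)) = pd Z (VE φ s) := hsig.symm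
    rw [h3]
    have hVU : VE φ α = U := by
      ext v
      rw [mem_VE, hk.mem]
    have h4 := pd_add_qd h hU.2.1
    have h5 := hk.dim
    have h6 : ((pd Z U : ℕ) : ℤ) - qd Z U = 0 := htr
    have h7 : s = α ∨ s = -α := by
      have h8 : (s - α) * (s + α) = 0 := by linear_combination hs - hk.al
      rcases mul_eq_zero.1 h8 with h9 | h9
      · exact Or.inl (sub_eq_zero.1 h9)
      · exact Or.inr (eq_neg_of_add_eq_zero_left h9)
    rcases h7 with rfl | rfl
    · rw [hVU]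
      omega
    · have h8 : VE φ (-α) = cjS cc U := by
        rw [← hVU, VE_cj, Pool.Agent.N438.HX.cc_neg hk.pos hk.al]
      rw [h8, pd_cc]
      omega
  · rw [finrank_AVZ] at h6
    omega

/-- **The simple abelian varieties with small or generic period fields** have no complex
multiplication, imaginary quadratic fields act with equal multiplicities, and the Hodge group is
equal to the Lefschetz group, or they are fourfolds or sixfolds of Weil type. -/
theorem typ_of_periods {Y : AV} (hY : IsSimple Y) (hp : SmallPeriods Y ∨ GenericPeriods Y) :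
    ¬ HasCMult Y ∧ (QuadMult Y ∨ FullHodge Y) ∧ ∀ d, ¬ Unbalanced Y d := by
  obtain ⟨G, Z, h, A, h1, h2⟩ := exists_model Y
  have hA : IsIso Y (AVZ h) A := ⟨h1, h2⟩
  have hsi := hA.simple hY
  have hs := simple_AVZ h hsi
  have hG : 0 < G := by
    obtain ⟨y, hy⟩ := hsi.1
    by_contra hcon
    have h3 : G = 0 := by omega
    subst h3
    exact hy (funext fun i => (i.elim (fun j => j.elim0) fun j => j.elim0))
  have hld : ∀ U, IrS (LZ Z) U → LD h U := by
    intro U hU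
    rcases hp with hp | hp
    · exact SmallPeriods.ld hs hG (small_iso A.symm h2 hp) hU
    · exact GenericPeriods.ld hs hG (generic_iso A.symm h2 hp) hU
  have : Nonempty (Fin G ⊕ Fin G) := ⟨Sum.inl ⟨0, hG⟩⟩
  obtain ⟨U, -, hU⟩ := exists_irS (L := LZ Z) _ (⊤ : Submodule ℂ (Fin G ⊕ Fin G → ℂ)) rfl
    top_ne_bot (fun X _ u _ => trivial)
  refine ⟨fun hcm => ?_, ?_, fun d hd => ?_⟩
  · have hcm' : HasCMult (AVZ h) := HasCMult.iso A.symm h2 h1 hcm
    have h3 := comm_of_cm h hs hG hcm'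
    have h4 := (hld U hU).dim
    have h5 := line_of_comm h3 hU
    omega
  · by_cases hall : ∀ U, IrS (LZ Z) U → SDu Z U
    · right
      obtain ⟨a, ha⟩ := exists_real h hs hG fun U hU => ⟨(hld U hU).rk, hall U hU⟩
      exact hA.symm.fullHodge (fullHodge h ha fun U hU => ⟨(hld U hU).rk, (hld U hU).dim, hall U hU⟩)
    · left
      push Not at hall
      obtain ⟨U, hU, hn⟩ := hall
      obtain ⟨φ, α, d, hq, hk, h46, htr, hdi⟩ := (hld U hU).or.resolve_left hn
      exact quadMult_iso A h1 (quad_of h hU hq hk h46 htr hdi)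
  · obtain ⟨-, ψ, -, -, U, hU, ht⟩ := exists_tr_ne h (Unbalanced.iso A.symm h2 hd)
    rcases (hld U hU).or with h3 | ⟨φ, α, d, -, -, -, h3, -⟩
    · exact ht (tr_sdu h hU h3)
    · exact ht h3

end

end Pool.Agent.N994.FH
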