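import Mathlib
import Pool.Agent.N178.HX.Parts
import Pool.Agent.N994.FH.J

/-!
# The generalized Hodge conjecture for abelian varieties with small or generic period fields
-/

namespace Pool.Agent.N994.FH

open Module Pool.Agent.Y90 Pool.Agent.R915
open Pool.Agent.N994.PG (SmallPeriods GenericPeriods)

/-- The generalized Hodge conjecture for the abelian varieties whose simple factors have small or
generic periods or are factors of an abelian variety of dimension at most three. -/
theorem ghc_periods (S : Sys) {A X : AV} (hA : finrank ℚ A.H ≤ 6)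
    (hX : ∀ Y, IsFactor Y X → IsFactor Y A ∨ SmallPeriods Y ∨ GenericPeriods Y) :
    Pool.Agent.N178.HX.GHC S X := by
  obtain ⟨K, _, T, hT, h⟩ := Pool.Agent.N178.HX.t_POW A hA
  refine Pool.Agent.N178.HX.uncond' Pool.Agent.N178.HX.t_MAINT Pool.Agent.N178.HX.t_COV T
    (fun _ : K => ()) (fun τ => ⟨τ (), fun _ _ => rfl⟩)
    (fun j => Or.inr (Or.inr ⟨Finset.univ, fun k => ⟨fun _ => rfl, fun _ => Finset.mem_univ k⟩, hT⟩))
    S X fun Y hY => ?_
  rcases hX Y hY with h1 | h1
  · exact h A (fun _ h2 => h2) Y h1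
  · obtain ⟨h2, h3, h4⟩ := Pool.Agent.N994.FH.typ_of_periods hY.1 h1
    exact Or.inr ⟨h2, by tauto, fun d hd => absurd hd (h4 d)⟩

end Pool.Agent.N994.FH
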