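import Mathlib
import Pool.Agent.N178.HX.Parts
import Pool.Agent.N994.FH.J

/-!
# The generalized Hodge conjecture for a class of abelian varieties
-/

namespace Pool.Agent.N994.FH

open Module Pool.Agent.Y90 Pool.Agent.R915
open Pool.Agent.N994.PG (SmallPeriods GenericPeriods)

/-- The generalized Hodge conjecture for the abelian varieties whose simple factors have small or
generic periods, or are factors of an abelian variety of dimension at most three, or are in one of the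
known classes without complex multiplication. -/
theorem ghc_typ (S : Sys) {A X : AV} (hA : finrank ℚ A.H ≤ 6)
    (hX : ∀ Y, IsFactor Y X → IsFactor Y A ∨ SmallPeriods Y ∨ GenericPeriods Y ∨
      (¬ HasCMult Y ∧ (finrank ℚ Y.H ≤ 6 ∨ QuadMult Y ∨ RealMult Y ∨ FiveDim Y ∨ FullHodge Y) ∧
        ∀ d : ℚ, Unbalanced Y d → finrank ℚ Y.H ≠ 8 ∧
          ∃ E, IsFactor E A ∧ finrank ℚ E.H = 2 ∧ Unbalanced E d)) :
    Pool.Agent.N178.HX.GHC S X := by
  obtain ⟨K, _, T, hT, h⟩ := Pool.Agent.N178.HX.t_POW A hA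
  refine Pool.Agent.N178.HX.uncond' Pool.Agent.N178.HX.t_MAINT Pool.Agent.N178.HX.t_COV T
    (fun _ : K => ()) (fun τ => ⟨τ (), fun _ _ => rfl⟩)
    (fun j => Or.inr (Or.inr ⟨Finset.univ, fun k => ⟨fun _ => rfl, fun _ => Finset.mem_univ k⟩, hT⟩))
    S X fun Y hY => ?_
  rcases hX Y hY with h1 | h1 | h1 | ⟨h1, h2, h3⟩
  · exact h A (fun _ h2 => h2) Y h1
  · obtain ⟨h2, h3, h4⟩ := Pool.Agent.N994.FH.typ_of_periods hY.1 (Or.inl h1)
    exact Or.inr ⟨h2, by tauto, fun d hd => absurd hd (h4 d)⟩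
  · obtain ⟨h2, h3, h4⟩ := Pool.Agent.N994.FH.typ_of_periods hY.1 (Or.inr h1)
    exact Or.inr ⟨h2, by tauto, fun d hd => absurd hd (h4 d)⟩
  · refine Or.inr ⟨h1, h2, fun d hd => ?_⟩
    obtain ⟨h4, E, hE, h5, h6⟩ := h3 d hd
    refine ⟨h4, ?_⟩
    rcases h A (fun _ h2 => h2) E hE with ⟨k, hk⟩ | ⟨-, -, h7⟩
    · exact ⟨k, E, hk, h5, h6⟩
    · exact (h7 d h6).2

end Pool.Agent.N994.FH
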